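import Pool.Agent.Helper16.KUnb.Defs
import Pool.Agent.Helper16.Jones.DefsU

set_option autoImplicit false

/-!
# States of which fewer than a third of the smoothings are of the wrong kind
-/

namespace Pool.Agent.Helper39.Thirds

open Pool.Agent.Helper16

/-- The state graph of the state `s` of the knotoid diagram `D` has no loops, and fewer than a third
of the crossings of every cycle are not `X`-smoothings of `s`; cycles with exactly one such crossing
have at least five crossings. (In terms of even subgraphs, the unions of edge-disjoint cycles.) -/
def Dominant {n : ℕ} (D : Knotoid.GaussDiagram n) (X : Bool) (s : Fin n → Bool) : Prop :=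
  ∀ C : Finset (Fin n), C.Nonempty → D.IsEven s C → C.card ≠ 1 ∧
    3 * Knotoid.GaussDiagram.num s (!X) C < C.card ∧
    (Knotoid.GaussDiagram.num s (!X) C = 1 → 5 ≤ C.card)

/-- The state graph of the state `s` of the knot diagram `D` has no loops, and fewer than a third of
the crossings of every cycle are not `X`-smoothings of `s`. (In terms of even subgraphs, the unions
of edge-disjoint cycles.) -/
def KnotDominant {n : ℕ} (D : Jones.KnotDiagram n) (X : Bool) (s : Fin n → Bool) : Prop :=
  ∀ C : Finset (Fin n), C.Nonempty → D.IsEven s C → C.card ≠ 1 ∧
    3 * Jones.KnotDiagram.num s (!X) C < C.card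

end Pool.Agent.Helper39.Thirds
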