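import Pool.Agent.Helper39.Thirds.Comb
import Pool.Agent.Helper39.Thirds.Defs
import Pool.Agent.Helper16.KUnb.Main
import Pool.Agent.Helper16.Sparse.FarDefs

set_option autoImplicit false

/-!
# Dominant states are unbalanced
-/

namespace Pool.Agent.Helper39.Thirds

open Pool.Agent.Helper16.Knotoid Pool.Agent.Helper16.Knotoid.GaussDiagram
open scoped symmDiff

variable {n : ℕ} {D : GaussDiagram n} {s : Fin n → Bool}

/-- sets of crossings without cycles -/
def Fst (D : GaussDiagram n) (s : Fin n → Bool) (F : Finset (Fin n)) : Prop :=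
  ∀ E ⊆ F, D.IsEven s E → E = ∅

theorem fst_exn {F : Finset (Fin n)} (h : Fst D s F) : D.exn s F = 0 := by
  classical
  induction F using Finset.induction_on with
  | empty => exact D.exn_empty s
  | insert c F hc ih =>
    have h1 : D.Sep s (insert c F) c :=
      D.exists_sep (Finset.mem_insert_self c F) fun C hC hE hcC => by
        rw [h C hC hE] at hcC
        exact Finset.notMem_empty _ hcC
    rw [D.exn_insert_sep hc (Sep.mono D h1 (Finset.subset_insert c F))]
    exact ih fun E hE => h E (hE.trans (Finset.subset_insert c F))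

theorem exn_add (X Y : Finset (Fin n)) : D.exn s (X ∪ Y) ≤ D.exn s Y + 2 * X.card := by
  classical
  induction X using Finset.induction_on with
  | empty => simp
  | insert c X hc ih =>
    rw [Finset.insert_union, Finset.card_insert_of_notMem hc]
    by_cases h : c ∈ X ∪ Y
    · rw [Finset.insert_eq_of_mem h]
      omega
    · have := (D.exn_insert s h).2
      omega

theorem exn_sub {F Z : Finset (Fin n)} (h : F ⊆ Z) :
    D.exn s Z + 2 * F.card ≤ D.exn s F + 2 * Z.card := by
  classical
  have h1 := exn_add (D := D) (s := s) (Z \ F) F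
  rw [Finset.sdiff_union_of_subset h] at h1
  have h2 := Finset.card_sdiff_add_card_eq_card h
  omega

theorem num_add (X : Bool) (Z : Finset (Fin n)) :
    num s X Z + num s (!X) Z = Z.card := by
  classical
  have h1 : num s X Z + (Z.filter fun c => ¬ s c = X).card = Z.card :=
    Finset.card_filter_add_card_filter_not _
  have h2 : num s (!X) Z = (Z.filter fun c => ¬ s c = X).card := by
    unfold num
    congr 1
    refine Finset.filter_congr fun c _ => ?_
    cases s c <;> cases X <;> simp
  omega

theorem num_abs (X : Bool) (Z : Finset (Fin n)) :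
    |(num s true Z : ℤ) - num s false Z| = |(Z.card : ℤ) - 2 * num s (!X) Z| := by
  have h1 := num_add (s := s) X Z
  cases X
  · rw [abs_sub_comm]
    congr 1
    simp only [Bool.not_false] at h1 ⊢
    omega
  · congr 1
    simp only [Bool.not_true] at h1 ⊢
    omega

/-- the even subsets of `Z` -/
def evens (D : GaussDiagram n) (s : Fin n → Bool) (Z : Finset (Fin n)) : Set (Finset (Fin n)) :=
  {C | C ⊆ Z ∧ D.IsEven s C}

theorem fam_evens (Z : Finset (Fin n)) : Fam (evens D s Z) := by
  classical
  refine ⟨⟨Finset.empty_subset _, fun q => by simp⟩, ?_⟩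
  rintro C ⟨h1, h2⟩ C' ⟨h3, h4⟩
  refine ⟨?_, ?_⟩
  · intro x hx
    rcases Finset.mem_symmDiff.1 hx with h | h
    · exact h1 h.1
    · exact h3 h.1
  · exact even_symmDiff h2 h4

theorem un_evens {Z : Finset (Fin n)} (hZ : D.IsCycleUnion s Z) : Un (evens D s Z) Z := by
  refine ⟨fun C hC => hC.1, fun c hc => ?_⟩
  obtain ⟨C, h1, h2, h3⟩ := hZ.2 c hc
  exact ⟨C, ⟨h1, h2⟩, h3⟩

theorem inter_wrong (X : Bool) (Z : Finset (Fin n)) :
    (Z ∩ Finset.univ.filter fun c => s c = !X).card = num s (!X) Z := by
  classical
  unfold num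
  congr 1
  ext x
  simp

/-- The bound for the excess from the large forests. -/
theorem excess_bound {X : Bool}
    (h : ∀ C : Finset (Fin n), C.Nonempty → D.IsEven s C → C.card ≠ 1 ∧ 3 * num s (!X) C < C.card)
    {Z : Finset (Fin n)} (hZ : D.IsCycleUnion s Z) :
    D.excess s Z + 2 ≤ 2 * |(num s true Z : ℤ) - num s false Z| ∧
    (2 ≤ num s (!X) Z → D.excess s Z + 4 ≤ 2 * |(num s true Z : ℤ) - num s false Z|) := by
  classical
  set W : Finset (Fin n) := Finset.univ.filter fun c => s c = !X with hW
  have hw : ∀ C ∈ evens D s Z, C.Nonempty → 1 ≤ w W C := by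
    intro C hC hne
    have h1 := (h C hne hC.2).2
    unfold w
    rw [hW, inter_wrong X C]
    omega
  have hl : ∀ C ∈ evens D s Z, C.card ≠ 1 := by
    intro C hC h1
    exact (h C (Finset.card_pos.1 (by omega)) hC.2).1 h1
  have hcon : ∀ F ⊆ Z, Ind (evens D s Z) F →
      D.excess s Z + 2 * F.card ≤ 2 * Z.card := by
    intro F hFZ hF
    have h1 := exn_sub (D := D) (s := s) hFZ
    rw [fst_exn (D := D) (s := s) fun E hE hEe => hF E ⟨hE.trans hFZ, hEe⟩ hE] at h1
    rw [← D.exn_eq]
    omega
  have habs := num_abs (s := s) X Z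
  have hnum := inter_wrong (s := s) X Z
  rw [← hW] at hnum
  refine ⟨?_, fun hm => ?_⟩
  · rcases Nat.eq_zero_or_pos (num s (!X) Z) with h0 | h0
    · obtain ⟨c, hc⟩ := hZ.1
      have h2 := hcon {c} (Finset.singleton_subset_iff.2 hc) (by
        intro E hE hEc
        rcases Finset.subset_singleton_iff.1 hEc with h | h
        · exact h
        · exact absurd (by rw [h, Finset.card_singleton]) (hl E hE))
      rw [Finset.card_singleton] at h2
      rw [habs, h0]
      have h4 : 0 < Z.card := Finset.card_pos.2 ⟨c, hc⟩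
      rw [abs_of_nonneg (by simp)]
      push_cast
      omega
    · obtain ⟨F, hFZ, hF, hFc⟩ := ind_gt (fam_evens Z) (un_evens hZ) hw
        (Finset.card_pos.1 (by rw [hnum]; exact h0))
      rw [hnum] at hFc
      have h2 := hcon F hFZ hF
      have h3 := Finset.card_le_card hFZ
      rw [habs, abs_of_nonneg (by omega)]
      omega
  · obtain ⟨F, hFZ, hF, hFc⟩ := ind_gt_two (fam_evens Z) (un_evens hZ) hw hl
      (by rw [hnum]; exact hm)
    rw [hnum] at hFc
    have h2 := hcon F hFZ hF
    have h3 := Finset.card_le_card hFZ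
    rw [habs, abs_of_nonneg (by omega)]
    omega

/-- A dominant state of a knotoid diagram is unbalanced, strictly on mixed sets. -/
theorem Dominant.unbalanced {X : Bool} (h : Dominant D X s) :
    D.Unbalanced s ∧ Pool.Agent.Helper16.Sparse.MixedStrict D s := by
  classical
  have h' : ∀ C : Finset (Fin n), C.Nonempty → D.IsEven s C →
      C.card ≠ 1 ∧ 3 * num s (!X) C < C.card := fun C hne hC => ⟨(h C hne hC).1, (h C hne hC).2.1⟩
  refine ⟨fun Z hZ => ?_, fun Z hZ ht hf => ?_⟩
  · have := (excess_bound h' hZ).1
    omega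
  · rcases Nat.lt_or_ge (num s (!X) Z) 2 with hm | hm
    · have h1 : num s (!X) Z = 1 := by
        cases X
        · simp only [Bool.not_false] at hm ⊢
          omega
        · simp only [Bool.not_true] at hm ⊢
          omega
      -- a cycle through the only wrong crossing
      have hne : (Z.filter fun c => s c = !X).Nonempty := by
        apply Finset.card_pos.1
        unfold num at h1
        omega
      obtain ⟨c, hc⟩ := hne
      rw [Finset.mem_filter] at hc
      obtain ⟨C0, hC0, hC0e, hcC0⟩ := hZ.2 c hc.1
      obtain ⟨K, hK, hKC, hcK, hind⟩ := exists_circuit (fam_evens (D := D) (s := s) Z)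
        (C := C0) ⟨hC0, hC0e⟩ hcC0
      have hKn : num s (!X) K = 1 := by
        have h2 : num s (!X) K ≤ num s (!X) Z := by
          unfold num
          exact Finset.card_le_card (Finset.filter_subset_filter _ hK.1)
        have h3 : 0 < num s (!X) K := by
          unfold num
          exact Finset.card_pos.2 ⟨c, Finset.mem_filter.2 ⟨hcK, hc.2⟩⟩
        omega
      have h5 := (h K ⟨c, hcK⟩ hK.2).2.2 hKn
      have hFZ : K.erase c ⊆ Z := (Finset.erase_subset _ _).trans hK.1
      have h6 := exn_sub (D := D) (s := s) hFZ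
      rw [fst_exn (D := D) (s := s) fun E hE hEe => hind E ⟨hE.trans hFZ, hEe⟩ hE,
        Finset.card_erase_of_mem hcK] at h6
      have h7 := Finset.card_le_card hFZ
      rw [Finset.card_erase_of_mem hcK] at h7
      rw [num_abs X Z, ← D.exn_eq, h1, abs_of_nonneg (by push_cast; omega)]
      push_cast
      omega
    · have := (excess_bound h' hZ).2 hm
      omega

end Pool.Agent.Helper39.Thirds
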