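import Pool.Agent.Helper39.Thirds.Gauss

set_option autoImplicit false

/-!
# Knotoids: series classes whose sizes grow fast
-/

namespace Pool.Agent.Helper39.Thirds

open Pool.Agent.Helper16.Knotoid Pool.Agent.Helper16.Knotoid.GaussDiagram

variable {n : ℕ} {D : GaussDiagram n} {s : Fin n → Bool}

/-- The number of crossings in the class `i`. -/
def classSize {n m : ℕ} (r : Fin n → Fin m) (i : Fin m) : ℕ :=
  (Finset.univ.filter fun c => r c = i).card

/-- The crossings are divided into classes (numbered by `r`) such that every cycle of the state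
graph of `s` which goes through a crossing goes through its whole class, `s` has only one kind of
smoothing in each class, and the sizes `t_1, …, t_m` of the classes satisfy
`t_i ≥ t_1 + ⋯ + t_(i-1) + i + 2` (here `i = 0, …, m - 1`, hence `i + 3` instead of `i + 2`). -/
def FastGrowing (D : GaussDiagram n) (s : Fin n → Bool) : Prop :=
  ∃ (m : ℕ) (r : Fin n → Fin m),
    (∀ C : Finset (Fin n), D.IsEven s C → ∀ c d, r c = r d → c ∈ C → d ∈ C) ∧
    (∀ c d, r c = r d → s c = s d) ∧
    ∀ i : Fin m, (∑ j ∈ Finset.univ.filter fun j => j < i, classSize r j) + (i + 3) ≤ classSize r i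

/-- the sum of the sizes of the classes in `M` -/
theorem card_classK {m : ℕ} (r : Fin n → Fin m) {C : Finset (Fin n)}
    (hC : ∀ c d, r c = r d → c ∈ C → d ∈ C) : C.card = ∑ j ∈ C.image r, classSize r j := by
  classical
  rw [Finset.card_eq_sum_card_image r C]
  refine Finset.sum_congr rfl fun j hj => ?_
  unfold classSize
  congr 1
  ext c
  rw [Finset.mem_filter, Finset.mem_filter]
  constructor
  · exact fun h => ⟨Finset.mem_univ _, h.2⟩
  · rintro ⟨-, h⟩
    obtain ⟨d, hd, hdj⟩ := Finset.mem_image.1 hj
    exact ⟨hC d c (hdj.trans h.symm) hd, h⟩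

/-- the excess is at most twice the number of the classes -/
theorem excess_le_classes {m : ℕ} {r : Fin n → Fin m}
    (hr : ∀ C : Finset (Fin n), D.IsEven s C → ∀ c d, r c = r d → c ∈ C → d ∈ C)
    (Z : Finset (Fin n)) : D.excess s Z ≤ 2 * (Z.image r).card := by
  classical
  have hch : ∀ j : {j // j ∈ Z.image r}, ∃ c ∈ Z, r c = j.1 := fun j => Finset.mem_image.1 j.2
  choose g hgZ hgr using hch
  let T : Finset (Fin n) := Finset.univ.image g
  have hTc : T.card ≤ (Z.image r).card := by
    have h1 := Finset.card_image_le (s := (Finset.univ : Finset {j // j ∈ Z.image r})) (f := g)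
    rwa [Finset.card_univ, Fintype.card_coe] at h1
  have hTZ : T ⊆ Z := by
    intro c hc
    obtain ⟨j, -, rfl⟩ := Finset.mem_image.1 hc
    exact hgZ j
  have hF : Fst D s (Z \ T) := by
    intro E hE hEe
    rw [Finset.eq_empty_iff_forall_notMem]
    intro c hc
    have hcZ : c ∈ Z := (Finset.mem_sdiff.1 (hE hc)).1
    let j : {j // j ∈ Z.image r} := ⟨r c, Finset.mem_image_of_mem r hcZ⟩
    have h1 : g j ∈ E := hr E hEe c (g j) (hgr j).symm hc
    exact (Finset.mem_sdiff.1 (hE h1)).2 (Finset.mem_image.2 ⟨j, Finset.mem_univ _, rfl⟩)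
  have h1 := exn_sub (D := D) (s := s) (Finset.sdiff_subset (s := Z) (t := T))
  rw [fst_exn hF] at h1
  have h2 := Finset.card_sdiff_add_card_eq_card hTZ
  rw [← D.exn_eq]
  omega

/-- Fast growing classes: the state is unbalanced, strictly on mixed sets. -/
theorem FastGrowing.unbalanced (h : FastGrowing D s) :
    D.Unbalanced s ∧ Pool.Agent.Helper16.Sparse.MixedStrict D s := by
  classical
  obtain ⟨m, r, hr, hs, ht⟩ := h
  have key : ∀ Z : Finset (Fin n), D.IsCycleUnion s Z →
      D.excess s Z + 4 ≤ 2 * |(num s true Z : ℤ) - num s false Z| := by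
    intro C hZ
    have hC : ∀ c d, r c = r d → c ∈ C → d ∈ C := by
      intro c d hcd hc
      obtain ⟨E, hE, hEe, hcE⟩ := hZ.2 c hc
      exact hE (hr E hEe c d hcd hcE)
    have hex := excess_le_classes (D := D) (s := s) hr C
    -- the last class in `C`
    obtain ⟨i, hi, hmax⟩ := Finset.exists_max_image (C.image r) id (hZ.1.image r)
    obtain ⟨c, hc, hci⟩ := Finset.mem_image.1 hi
    have hle : ∀ j ∈ C.image r, j ≤ i := fun j hj => hmax j hj
    have hcard : (C.image r).card ≤ i + 1 := by
      have h1 : C.image r ⊆ Finset.Iic i := fun j hj => Finset.mem_Iic.2 (hle j hj)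
      have h2 := Finset.card_le_card h1
      rwa [Fin.card_Iic] at h2
    -- the crossings of `C` outside the last class
    set L : Finset (Fin n) := Finset.univ.filter fun d => r d = i with hL
    have hLC : L ⊆ C := fun d hd => by
      rw [hL, Finset.mem_filter] at hd
      exact hC c d (hci.trans hd.2.symm) hc
    have hLcard : L.card = classSize r i := rfl
    have hrest : (C \ L).card ≤ ∑ j ∈ Finset.univ.filter fun j => j < i, classSize r j := by
      have h1 : ∀ a b, r a = r b → a ∈ C \ L → b ∈ C \ L := by
        intro a b hab ha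
        rw [Finset.mem_sdiff, hL, Finset.mem_filter] at ha ⊢
        refine ⟨hC a b hab ha.1, fun hb => ha.2 ⟨Finset.mem_univ _, hab.trans hb.2⟩⟩
      rw [card_classK r h1]
      refine Finset.sum_le_sum_of_subset ?_
      intro j hj
      obtain ⟨d, hd, hdj⟩ := Finset.mem_image.1 hj
      rw [Finset.mem_sdiff, hL, Finset.mem_filter] at hd
      rw [Finset.mem_filter]
      refine ⟨Finset.mem_univ _, lt_of_le_of_ne (hle j ?_) ?_⟩
      · exact Finset.mem_image.2 ⟨d, hd.1, hdj⟩
      · rintro rfl
        exact hd.2 ⟨Finset.mem_univ _, hdj⟩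
    have hti := ht i
    -- numbers
    have hn : ∀ X : Bool, num s X C = num s X L + num s X (C \ L) := by
      intro X
      unfold num
      have h1 := Finset.card_filter_add_card_filter_not (s := C.filter fun c => s c = X)
        (fun c => c ∈ L)
      rw [← h1]
      congr 2
      · ext d
        simp only [Finset.mem_filter]
        constructor
        · rintro ⟨⟨-, h2⟩, h3⟩
          exact ⟨h3, h2⟩
        · rintro ⟨h3, h2⟩
          exact ⟨⟨hLC h3, h2⟩, h3⟩
      · ext d
        simp only [Finset.mem_filter, Finset.mem_sdiff]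
        tauto
    have hnle : ∀ X : Bool, num s X (C \ L) ≤ (C \ L).card := fun X => Finset.card_filter_le _ _
    have hLs : ∀ d ∈ L, s d = s c := fun d hd => by
      rw [hL, Finset.mem_filter] at hd
      exact hs d c (hd.2.trans hci.symm)
    have h1 : num s (s c) L = L.card := by
      unfold num
      rw [Finset.filter_true_of_mem hLs]
    have h2 : num s (!s c) L = 0 := by
      unfold num
      rw [Finset.card_eq_zero, Finset.filter_eq_empty_iff]
      intro d hd hd'
      rw [hLs d hd] at hd'
      cases hx : s c <;> rw [hx] at hd' <;> exact absurd hd' (by decide)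
    have hT := hn true
    have hF := hn false
    have hT' := hnle true
    have hF' := hnle false
    cases hx : s c
    · rw [hx] at h1 h2
      have h2' : num s true L = 0 := h2
      rw [h2'] at hT
      rw [h1] at hF
      rw [abs_sub_comm, abs_of_nonneg (by omega)]
      omega
    · rw [hx] at h1 h2
      have h2' : num s false L = 0 := h2
      rw [h2'] at hF
      rw [h1] at hT
      rw [abs_of_nonneg (by omega)]
      omega
  refine ⟨fun Z hZ => ?_, fun Z hZ _ _ => ?_⟩
  · have := key Z hZ
    omega
  · have := key Z hZ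
    omega

end Pool.Agent.Helper39.Thirds
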