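import Mathlib

set_option autoImplicit false

/-!
# Binary spaces with few wrong elements in every nonempty set: large independent sets

`𝒞` is a family of finite sets closed under symmetric differences. If fewer than a third of the
elements of every nonempty member of `𝒞` belong to `W`, then a union `Z` of members of `𝒞` contains
an independent set with more than `2 |Z ∩ W|` elements.
-/

namespace Pool.Agent.Helper39.Thirds

open scoped symmDiff

variable {ι : Type} [DecidableEq ι]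

/-- a family of finite sets closed under symmetric differences -/
structure Fam (𝒞 : Set (Finset ι)) : Prop where
  empty : ∅ ∈ 𝒞
  symm : ∀ C ∈ 𝒞, ∀ C' ∈ 𝒞, C ∆ C' ∈ 𝒞

/-- `Z` is the union of the members of the family -/
def Un (𝒞 : Set (Finset ι)) (Z : Finset ι) : Prop :=
  (∀ C ∈ 𝒞, C ⊆ Z) ∧ ∀ c ∈ Z, ∃ C ∈ 𝒞, c ∈ C

/-- independent sets -/
def Ind (𝒞 : Set (Finset ι)) (F : Finset ι) : Prop := ∀ C ∈ 𝒞, C ⊆ F → C = ∅

/-- contraction -/
def contract (𝒞 : Set (Finset ι)) (K : Finset ι) : Set (Finset ι) := {C | ∃ C' ∈ 𝒞, C = C' \ K}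

/-- right elements minus twice the wrong ones -/
def w (W C : Finset ι) : ℤ := (C.card : ℤ) - 3 * (C ∩ W).card

theorem w_split (W C K : Finset ι) : w W C = w W (C \ K) + w W (C ∩ K) := by
  unfold w
  have h1 := Finset.card_sdiff_add_card_inter C K
  have h2 := Finset.card_sdiff_add_card_inter (C ∩ W) K
  have e1 : (C ∩ W) \ K = (C \ K) ∩ W := by
    ext x; simp only [Finset.mem_sdiff, Finset.mem_inter]; tauto
  have e2 : (C ∩ W) ∩ K = (C ∩ K) ∩ W := by
    ext x; simp only [Finset.mem_inter]; tauto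
  rw [e1, e2] at h2
  omega

theorem w_symm (W C K : Finset ι) : w W (C ∆ K) = w W (C \ K) + w W (K \ C) := by
  have h := w_split W (C ∆ K) K
  have e1 : (C ∆ K) \ K = C \ K := by
    ext x; simp only [Finset.mem_sdiff, Finset.mem_symmDiff]; tauto
  have e2 : (C ∆ K) ∩ K = K \ C := by
    ext x; simp only [Finset.mem_sdiff, Finset.mem_inter, Finset.mem_symmDiff]; tauto
  rw [e1, e2] at h
  exact h

theorem w_key (W C K : Finset ι) : w W C + w W (C ∆ K) = 2 * w W (C \ K) + w W K := by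
  rw [w_split W C K, w_symm W C K, w_split W K C, Finset.inter_comm K C]
  ring

theorem Fam.contract {𝒞 : Set (Finset ι)} (h : Fam 𝒞) (K : Finset ι) :
    Fam (Thirds.contract 𝒞 K) := by
  refine ⟨⟨∅, h.empty, by simp⟩, ?_⟩
  rintro _ ⟨C, hC, rfl⟩ _ ⟨C', hC', rfl⟩
  refine ⟨C ∆ C', h.symm C hC C' hC', ?_⟩
  ext x
  simp only [Finset.mem_sdiff, Finset.mem_symmDiff]
  tauto

theorem Un.contract {𝒞 : Set (Finset ι)} {Z : Finset ι} (h : Un 𝒞 Z) (K : Finset ι) :
    Un (Thirds.contract 𝒞 K) (Z \ K) := by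
  refine ⟨?_, ?_⟩
  · rintro _ ⟨C, hC, rfl⟩
    exact Finset.sdiff_subset_sdiff (h.1 C hC) subset_rfl
  · intro c hc
    rw [Finset.mem_sdiff] at hc
    obtain ⟨C, hC, hcC⟩ := h.2 c hc.1
    exact ⟨C \ K, ⟨C, hC, rfl⟩, Finset.mem_sdiff.2 ⟨hcC, hc.2⟩⟩

/-- an independent set of the contraction together with an independent subset of `K` -/
theorem Ind.extend {𝒞 : Set (Finset ι)} {K K' F : Finset ι} (hK : K' ⊆ K) (hFK : Disjoint F K)
    (hind : Ind 𝒞 K') (hF : Ind (contract 𝒞 K) F) : Ind 𝒞 (F ∪ K') := by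
  intro C hC hsub
  have h1 : C \ K = ∅ := by
    refine hF (C \ K) ⟨C, hC, rfl⟩ ?_
    intro x hx
    rw [Finset.mem_sdiff] at hx
    rcases Finset.mem_union.1 (hsub hx.1) with h | h
    · exact h
    · exact absurd (hK h) hx.2
  have h2 : C ⊆ K := Finset.sdiff_eq_empty_iff_subset.1 h1
  refine hind C hC fun x hx => ?_
  rcases Finset.mem_union.1 (hsub hx) with h | h
  · exact absurd (h2 hx) (Finset.disjoint_left.1 hFK h)
  · exact h

/-- a minimal member of the family below a given one which contains a given element -/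
theorem exists_circuit {𝒞 : Set (Finset ι)} (h : Fam 𝒞) {C : Finset ι} (hC : C ∈ 𝒞) {c : ι}
    (hc : c ∈ C) : ∃ K ∈ 𝒞, K ⊆ C ∧ c ∈ K ∧ Ind 𝒞 (K.erase c) := by
  classical
  obtain ⟨K, hK, hmin⟩ := Finset.exists_min_image (C.powerset.filter fun K => K ∈ 𝒞 ∧ c ∈ K)
    Finset.card ⟨C, Finset.mem_filter.2 ⟨Finset.mem_powerset_self C, hC, hc⟩⟩
  rw [Finset.mem_filter, Finset.mem_powerset] at hK
  refine ⟨K, hK.2.1, hK.1, hK.2.2, fun E hE hEK => ?_⟩
  have h1 : K ∆ E = K \ E := by
    ext x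
    rw [Finset.mem_symmDiff, Finset.mem_sdiff]
    exact ⟨fun h => h.resolve_right fun h' => h'.2 (Finset.erase_subset _ _ (hEK h'.1)), Or.inl⟩
  have h2 : c ∉ E := fun h' => Finset.notMem_erase c K (hEK h')
  have h3 := hmin (K \ E) (Finset.mem_filter.2 ⟨Finset.mem_powerset.2
    (Finset.sdiff_subset.trans hK.1), h1 ▸ h.symm K hK.2.1 E hE,
      Finset.mem_sdiff.2 ⟨hK.2.2, h2⟩⟩)
  have h4 := Finset.card_sdiff_add_card_eq_card (hEK.trans (Finset.erase_subset _ _))
  exact Finset.card_eq_zero.1 (by omega)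

theorem w_card (W C : Finset ι) : (C ∩ W).card ≤ C.card := Finset.card_le_card
  Finset.inter_subset_left

theorem w_sdiff_singleton (W C : Finset ι) {f : ι} (hf : f ∉ W) : w W C ≤ w W (C \ {f}) + 1 := by
  rw [w_split W C {f}]
  have h1 : (C ∩ {f}).card ≤ 1 := (Finset.card_le_card Finset.inter_subset_right).trans
    (by simp)
  unfold w
  omega

theorem inter_sdiff_card (Z W K : Finset ι) (hK : K ⊆ Z) :
    (Z ∩ W).card = ((Z \ K) ∩ W).card + (K ∩ W).card := by
  have h2 := Finset.card_sdiff_add_card_inter (Z ∩ W) K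
  have e1 : (Z ∩ W) \ K = (Z \ K) ∩ W := by
    ext x; simp only [Finset.mem_sdiff, Finset.mem_inter]; tauto
  have e2 : (Z ∩ W) ∩ K = K ∩ W := by
    ext x; simp only [Finset.mem_inter]
    exact ⟨fun h => ⟨h.2, h.1.2⟩, fun h => ⟨⟨hK h.1, h.2⟩, h.1⟩⟩
  rw [e1, e2] at h2
  omega

/-- a right element which is no loop -/
theorem exists_right {𝒞 : Set (Finset ι)} {W Z : Finset ι} (h : Fam 𝒞) (hZ : Un 𝒞 Z)
    (hw : ∀ C ∈ 𝒞, C.Nonempty → 1 ≤ w W C) (hm : (Z ∩ W).Nonempty) :
    ∃ f ∈ Z, f ∉ W ∧ Ind 𝒞 {f} := by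
  obtain ⟨c, hc⟩ := hm
  rw [Finset.mem_inter] at hc
  obtain ⟨C, hC, hcC⟩ := hZ.2 c hc.1
  obtain ⟨K, hK, hKC, hcK, hind⟩ := exists_circuit h hC hcC
  have h1 := hw K hK ⟨c, hcK⟩
  have h2 : ∃ f ∈ K, f ∉ W := by
    by_contra hn
    push Not at hn
    have h3 : K ∩ W = K := Finset.inter_eq_left.2 hn
    unfold w at h1
    rw [h3] at h1
    omega
  obtain ⟨f, hf, hfW⟩ := h2
  refine ⟨f, hZ.1 C hC (hKC hf), hfW, fun E hE hEf => hind E hE (hEf.trans ?_)⟩
  rw [Finset.singleton_subset_iff, Finset.mem_erase]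
  refine ⟨?_, hf⟩
  rintro rfl
  exact hfW hc.2

theorem disj_sdiff {F Z K : Finset ι} (h : F ⊆ Z \ K) : Disjoint F K :=
  Finset.disjoint_left.2 fun _ hx => (Finset.mem_sdiff.1 (h hx)).2

/-- at most a third of the elements wrong: `|F| ≥ 2 |Z ∩ W|` -/
theorem ind_ge (W : Finset ι) : ∀ (k : ℕ) (𝒞 : Set (Finset ι)) (Z : Finset ι), Z.card ≤ k →
    Fam 𝒞 → Un 𝒞 Z → (∀ C ∈ 𝒞, 0 ≤ w W C) →
    ∃ F ⊆ Z, Ind 𝒞 F ∧ 2 * (Z ∩ W).card ≤ F.card := by
  intro k
  induction k with
  | zero =>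
    intro 𝒞 Z hk _ _ _
    have h0 : Z = ∅ := Finset.card_eq_zero.1 (by omega)
    subst h0
    exact ⟨∅, subset_rfl, fun C _ h => Finset.subset_empty.1 h, by simp⟩
  | succ k ih =>
    intro 𝒞 Z hk h hZ hw
    rcases Finset.eq_empty_or_nonempty (Z ∩ W) with hm | hm
    · exact ⟨∅, Finset.empty_subset _, fun C _ h => Finset.subset_empty.1 h, by simp [hm]⟩
    by_cases hz : ∃ C ∈ 𝒞, C.Nonempty ∧ w W C = 0
    · obtain ⟨C0, hC0, ⟨c, hc⟩, hw0⟩ := hz
      obtain ⟨K, hK, hKC, hcK, hind⟩ := exists_circuit h hC0 hc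
      -- `K` has weight zero
      have hK0 : w W K = 0 := by
        have h1 := w_split W C0 K
        rw [Finset.inter_eq_right.2 hKC] at h1
        have h2 : C0 ∆ K = C0 \ K := by
          ext x
          rw [Finset.mem_symmDiff, Finset.mem_sdiff]
          exact ⟨fun h => h.resolve_right fun h' => h'.2 (hKC h'.1), Or.inl⟩
        have h3 := hw _ (h.symm C0 hC0 K hK)
        rw [h2] at h3
        have h4 := hw K hK
        omega
      have hKZ : K ⊆ Z := hZ.1 K hK
      have hlt : (Z \ K).card ≤ k := by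
        have h1 := Finset.card_sdiff_add_card_eq_card hKZ
        have h2 : 0 < K.card := Finset.card_pos.2 ⟨c, hcK⟩
        omega
      obtain ⟨F, hFZ, hF, hFc⟩ := ih (contract 𝒞 K) (Z \ K) hlt (h.contract K) (hZ.contract K) (by
        rintro _ ⟨C, hC, rfl⟩
        have h1 := w_key W C K
        have h2 := hw C hC
        have h3 := hw _ (h.symm C hC K hK)
        omega)
      refine ⟨F ∪ K.erase c, ?_, Ind.extend (Finset.erase_subset _ _) (disj_sdiff hFZ) hind hF, ?_⟩
      · exact Finset.union_subset (hFZ.trans Finset.sdiff_subset)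
          ((Finset.erase_subset _ _).trans hKZ)
      · have hd : Disjoint F (K.erase c) :=
          Disjoint.mono_right (Finset.erase_subset _ _) (disj_sdiff hFZ)
        rw [Finset.card_union_of_disjoint hd, Finset.card_erase_of_mem hcK,
          inter_sdiff_card Z W K hKZ]
        have h1 : 0 < K.card := Finset.card_pos.2 ⟨c, hcK⟩
        unfold w at hK0
        omega
    · have hw1 : ∀ C ∈ 𝒞, C.Nonempty → 1 ≤ w W C := by
        intro C hC hne
        have h1 := hw C hC
        have h2 : w W C ≠ 0 := fun h2 => hz ⟨C, hC, hne, h2⟩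
        omega
      obtain ⟨f, hfZ, hfW, hf⟩ := exists_right h hZ hw1 hm
      have hKZ : ({f} : Finset ι) ⊆ Z := Finset.singleton_subset_iff.2 hfZ
      have hlt : (Z \ {f}).card ≤ k := by
        have h1 := Finset.card_sdiff_add_card_eq_card hKZ
        rw [Finset.card_singleton] at h1
        omega
      obtain ⟨F, hFZ, hF, hFc⟩ := ih (contract 𝒞 {f}) (Z \ {f}) hlt (h.contract _)
        (hZ.contract _) (by
        rintro _ ⟨C, hC, rfl⟩
        rcases Finset.eq_empty_or_nonempty C with rfl | hne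
        · simp [w]
        · have h1 := hw1 C hC hne
          have h2 := w_sdiff_singleton W C hfW
          omega)
      refine ⟨F ∪ {f}, ?_, Ind.extend subset_rfl (disj_sdiff hFZ) hf hF, ?_⟩
      · exact Finset.union_subset (hFZ.trans Finset.sdiff_subset) hKZ
      · rw [Finset.card_union_of_disjoint (disj_sdiff hFZ), Finset.card_singleton,
          inter_sdiff_card Z W {f} hKZ, Finset.singleton_inter_of_notMem hfW, Finset.card_empty]
        omega

/-- fewer than a third of the elements wrong: `|F| ≥ 2 |Z ∩ W| + 1` -/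
theorem ind_gt {W : Finset ι} {𝒞 : Set (Finset ι)} {Z : Finset ι} (h : Fam 𝒞) (hZ : Un 𝒞 Z)
    (hw : ∀ C ∈ 𝒞, C.Nonempty → 1 ≤ w W C) (hm : (Z ∩ W).Nonempty) :
    ∃ F ⊆ Z, Ind 𝒞 F ∧ 2 * (Z ∩ W).card + 1 ≤ F.card := by
  obtain ⟨f, hfZ, hfW, hf⟩ := exists_right h hZ hw hm
  have hKZ : ({f} : Finset ι) ⊆ Z := Finset.singleton_subset_iff.2 hfZ
  obtain ⟨F, hFZ, hF, hFc⟩ := ind_ge W _ (contract 𝒞 {f}) (Z \ {f}) le_rfl (h.contract _)
    (hZ.contract _) (by
    rintro _ ⟨C, hC, rfl⟩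
    rcases Finset.eq_empty_or_nonempty C with rfl | hne
    · simp [w]
    · have h1 := hw C hC hne
      have h2 := w_sdiff_singleton W C hfW
      omega)
  refine ⟨F ∪ {f}, ?_, Ind.extend subset_rfl (disj_sdiff hFZ) hf hF, ?_⟩
  · exact Finset.union_subset (hFZ.trans Finset.sdiff_subset) hKZ
  · rw [Finset.card_union_of_disjoint (disj_sdiff hFZ), Finset.card_singleton,
      inter_sdiff_card Z W {f} hKZ, Finset.singleton_inter_of_notMem hfW, Finset.card_empty]
    omega

/-- fewer than a third of the elements wrong, at least two wrong elements, no right loops: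
`|F| ≥ 2 |Z ∩ W| + 2` -/
theorem ind_gt_two {W : Finset ι} {𝒞 : Set (Finset ι)} {Z : Finset ι} (h : Fam 𝒞) (hZ : Un 𝒞 Z)
    (hw : ∀ C ∈ 𝒞, C.Nonempty → 1 ≤ w W C) (hl : ∀ C ∈ 𝒞, C.card ≠ 1)
    (hm : 2 ≤ (Z ∩ W).card) :
    ∃ F ⊆ Z, Ind 𝒞 F ∧ 2 * (Z ∩ W).card + 2 ≤ F.card := by
  by_cases hz : ∃ C ∈ 𝒞, C.Nonempty ∧ w W C = 1
  · obtain ⟨K, hK, ⟨c, hcK⟩, hK1⟩ := hz
    have hind : Ind 𝒞 (K.erase c) := by
      intro E hE hEK
      by_contra hne
      have hne' : E.Nonempty := Finset.nonempty_iff_ne_empty.2 hne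
      have hEK' : E ⊆ K := hEK.trans (Finset.erase_subset _ _)
      have h1 := w_split W K E
      rw [Finset.inter_eq_right.2 hEK'] at h1
      have h2 : K ∆ E = K \ E := by
        ext x
        rw [Finset.mem_symmDiff, Finset.mem_sdiff]
        exact ⟨fun h => h.resolve_right fun h' => h'.2 (hEK' h'.1), Or.inl⟩
      have h3 := hw _ (h.symm K hK E hE) ⟨c, by
        rw [h2, Finset.mem_sdiff]
        exact ⟨hcK, fun h' => Finset.notMem_erase c K (hEK h')⟩⟩
      rw [h2] at h3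
      have h4 := hw E hE hne'
      omega
    have hKZ : K ⊆ Z := hZ.1 K hK
    have hKW : 1 ≤ (K ∩ W).card := by
      have h1 := hl K hK
      unfold w at hK1
      omega
    have hcard : ∀ F ⊆ Z \ K, (F ∪ K.erase c).card = F.card + (K.card - 1) := by
      intro F hF
      rw [Finset.card_union_of_disjoint
        (Disjoint.mono_right (Finset.erase_subset _ _) (disj_sdiff hF)),
        Finset.card_erase_of_mem hcK]
    have hsub : ∀ F ⊆ Z \ K, F ∪ K.erase c ⊆ Z := fun F hF =>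
      Finset.union_subset (hF.trans Finset.sdiff_subset) ((Finset.erase_subset _ _).trans hKZ)
    rcases Finset.eq_empty_or_nonempty ((Z \ K) ∩ W) with h0 | h0
    · refine ⟨∅ ∪ K.erase c, hsub _ (Finset.empty_subset _), ?_, ?_⟩
      · rw [Finset.empty_union]
        exact hind
      · rw [hcard _ (Finset.empty_subset _), inter_sdiff_card Z W K hKZ, h0, Finset.card_empty]
        have h1 := inter_sdiff_card Z W K hKZ
        rw [h0, Finset.card_empty] at h1
        unfold w at hK1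
        omega
    · obtain ⟨F, hFZ, hF, hFc⟩ := ind_gt (h.contract K) (hZ.contract K) (W := W) (by
        rintro _ ⟨C, hC, rfl⟩ hne
        have hCK : C ∆ K ≠ ∅ := by
          intro h1
          have h2 : C = K := symmDiff_eq_bot.1 h1
          rw [h2, Finset.sdiff_self] at hne
          exact Finset.not_nonempty_empty hne
        have h1 := w_key W C K
        have h2 := hw C hC (hne.mono Finset.sdiff_subset)
        have h3 := hw _ (h.symm C hC K hK) (Finset.nonempty_iff_ne_empty.2 hCK)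
        omega) h0
      refine ⟨F ∪ K.erase c, hsub F hFZ,
        Ind.extend (Finset.erase_subset _ _) (disj_sdiff hFZ) hind hF, ?_⟩
      rw [hcard F hFZ, inter_sdiff_card Z W K hKZ]
      unfold w at hK1
      omega
  · have hw2 : ∀ C ∈ 𝒞, C.Nonempty → 2 ≤ w W C := by
      intro C hC hne
      have h1 := hw C hC hne
      have h2 : w W C ≠ 1 := fun h2 => hz ⟨C, hC, hne, h2⟩
      omega
    have hm' : (Z ∩ W).Nonempty := Finset.card_pos.1 (by omega)
    obtain ⟨f, hfZ, hfW, hf⟩ := exists_right h hZ hw hm'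
    have hKZ : ({f} : Finset ι) ⊆ Z := Finset.singleton_subset_iff.2 hfZ
    have hsame : (Z ∩ W).card = ((Z \ {f}) ∩ W).card := by
      rw [inter_sdiff_card Z W {f} hKZ, Finset.singleton_inter_of_notMem hfW, Finset.card_empty,
        add_zero]
    obtain ⟨F, hFZ, hF, hFc⟩ := ind_gt (h.contract {f}) (hZ.contract {f}) (W := W) (by
      rintro _ ⟨C, hC, rfl⟩ hne
      have h1 := hw2 C hC (hne.mono Finset.sdiff_subset)
      have h2 := w_sdiff_singleton W C hfW
      omega) (Finset.card_pos.1 (by omega))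
    refine ⟨F ∪ {f}, ?_, Ind.extend subset_rfl (disj_sdiff hFZ) hf hF, ?_⟩
    · exact Finset.union_subset (hFZ.trans Finset.sdiff_subset) hKZ
    · rw [Finset.card_union_of_disjoint (disj_sdiff hFZ), Finset.card_singleton]
      omega

end Pool.Agent.Helper39.Thirds
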