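import Pool.Agent.Helper39.Thirds.Comb

set_option autoImplicit false

/-!
# Large independent sets if the family consists of the cuts of a multigraph

If in every nonempty cut `C` at least `2 |C ∩ W| + 2` elements lie (and at least `2 |C ∩ W| + 3` if
`C` meets `W`), then a union `Z` of cuts contains an independent set with at least
`2 |Z ∩ W| + 1` elements (at least `2 |Z ∩ W| + 2` if `Z` meets `W`): sum over the vertices.
-/

namespace Pool.Agent.Helper39.Thirds

open Module

section graph

variable {ι V : Type} [Fintype ι] [DecidableEq ι] [Fintype V] [DecidableEq V]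

/-- the cut defined by a function on the vertices -/
def cutV (P : ι → V × V) (f : V → ZMod 2) : Finset ι :=
  Finset.univ.filter fun e => f (P e).1 ≠ f (P e).2

/-- the vector of an edge -/
def vecE (P : ι → V × V) (e : ι) : V → ZMod 2 := Pi.single (P e).1 1 + Pi.single (P e).2 1

theorem dot_vecE (P : ι → V × V) (e : ι) (f : V → ZMod 2) :
    ∑ v, vecE P e v * f v = f (P e).1 + f (P e).2 := by
  unfold vecE
  simp only [Pi.add_apply, add_mul, Finset.sum_add_distrib]
  congr 1
  · rw [Finset.sum_eq_single (P e).1]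
    · simp
    · intro b _ hb
      rw [Pi.single_eq_of_ne hb, zero_mul]
    · exact fun h => absurd (Finset.mem_univ _) h
  · rw [Finset.sum_eq_single (P e).2]
    · simp
    · intro b _ hb
      rw [Pi.single_eq_of_ne hb, zero_mul]
    · exact fun h => absurd (Finset.mem_univ _) h

/-- a small set of edges which meets every cut: `Z` consists of edges which are not loops, all
other edges are loops, `V'` the ends of the edges of `Z` -/
theorem exists_span (P : ι → V × V) (Z : Finset ι) (hne : Z.Nonempty) (V' : Finset V)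
    (hV : ∀ e ∈ Z, (P e).1 ∈ V' ∧ (P e).2 ∈ V') :
    ∃ T ⊆ Z, T.card + 1 ≤ V'.card ∧
      ∀ f : V → ZMod 2, (∀ e ∈ T, f (P e).1 = f (P e).2) → ∀ e ∈ Z, f (P e).1 = f (P e).2 := by
  classical
  obtain ⟨e0, he0⟩ := hne
  set v0 := (P e0).1 with hv0
  have hv0V : v0 ∈ V' := (hV e0 he0).1
  obtain ⟨b, hbs, hspan, hli⟩ := exists_linearIndependent (ZMod 2) ((vecE P) '' (Z : Set ι))
  -- a set of edges with these vectors
  have hch : ∀ x : (vecE P) '' (Z : Set ι), ∃ e ∈ Z, vecE P e = x := fun x => x.2
  choose g hg using hch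
  have hfin : b.Finite := (Z.finite_toSet.image (vecE P)).subset hbs
  have := hfin.fintype
  let T : Finset ι := Finset.univ.image fun x : b => g ⟨x.1, hbs x.2⟩
  have hTc : T.card ≤ Fintype.card b := by
    have h1 := Finset.card_image_le (s := (Finset.univ : Finset b))
      (f := fun x : b => g ⟨x.1, hbs x.2⟩)
    rwa [Finset.card_univ] at h1
  refine ⟨T, ?_, ?_, ?_⟩
  · intro e he
    obtain ⟨x, -, rfl⟩ := Finset.mem_image.1 he
    exact (hg _).1
  · -- the dimension
    let W := Submodule.span (ZMod 2) ((vecE P) '' (Z : Set ι))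
    have h1 : Fintype.card b = finrank (ZMod 2) W := by
      have h2 := finrank_span_eq_card hli
      rw [← h2]
      show finrank (ZMod 2) (Submodule.span (ZMod 2) (Set.range fun x : b => (x : V → ZMod 2))) = _
      rw [Subtype.range_coe, hspan]
    -- all vectors of `W` are supported on `V'` and have sum zero
    have hW : ∀ u ∈ W, (∀ v ∉ V', u v = 0) ∧ ∑ v, u v = 0 := by
      intro u hu
      induction hu using Submodule.span_induction with
      | mem u hu =>
        obtain ⟨e, he, rfl⟩ := hu
        refine ⟨fun v hv => ?_, ?_⟩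
        · have h3 := hV e he
          unfold vecE
          rw [Pi.add_apply, Pi.single_eq_of_ne, Pi.single_eq_of_ne, add_zero]
          · rintro rfl; exact hv h3.2
          · rintro rfl; exact hv h3.1
        · have h3 := dot_vecE P e (fun _ => 1)
          simp only [mul_one] at h3
          rw [h3]
          exact CharTwo.add_self_eq_zero _
      | zero => exact ⟨fun _ _ => rfl, by simp⟩
      | add x y _ _ hx hy =>
        refine ⟨fun v hv => by rw [Pi.add_apply, hx.1 v hv, hy.1 v hv, add_zero], ?_⟩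
        simp only [Pi.add_apply, Finset.sum_add_distrib, hx.2, hy.2, add_zero]
      | smul a x _ hx =>
        refine ⟨fun v hv => by rw [Pi.smul_apply, hx.1 v hv, smul_zero], ?_⟩
        simp only [Pi.smul_apply, ← Finset.smul_sum, hx.2, smul_zero]
    let ρ : W →ₗ[ZMod 2] ({v // v ∈ V'.erase v0} → ZMod 2) :=
      { toFun := fun u v => u.1 v.1
        map_add' := fun _ _ => rfl
        map_smul' := fun _ _ => rfl }
    have hinj : Function.Injective ρ := by
      rw [← LinearMap.ker_eq_bot, LinearMap.ker_eq_bot']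
      intro u hu
      have h3 : ∀ v, v ≠ v0 → u.1 v = 0 := by
        intro v hv
        by_cases hvV : v ∈ V'
        · exact congrFun hu ⟨v, Finset.mem_erase.2 ⟨hv, hvV⟩⟩
        · exact (hW u.1 u.2).1 v hvV
      have h4 := (hW u.1 u.2).2
      rw [Finset.sum_eq_single v0 (fun v _ hv => h3 v hv)
        (fun h => absurd (Finset.mem_univ _) h)] at h4
      apply Subtype.ext
      funext v
      by_cases hv : v = v0
      · rw [hv]
        exact h4
      · exact h3 v hv
    have h5 := LinearMap.finrank_le_finrank_of_injective hinj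
    rw [finrank_fintype_fun_eq_card, Fintype.card_coe, Finset.card_erase_of_mem hv0V] at h5
    have h6 : 0 < V'.card := Finset.card_pos.2 ⟨v0, hv0V⟩
    omega
  · intro f hf
    have h1 : ∀ u ∈ Submodule.span (ZMod 2) ((vecE P) '' (Z : Set ι)), ∑ v, u v * f v = 0 := by
      intro u hu
      rw [← hspan] at hu
      induction hu using Submodule.span_induction with
      | mem u hu =>
        have h2 := hg ⟨u, hbs hu⟩
        have h3 : g ⟨u, hbs hu⟩ ∈ T := Finset.mem_image.2 ⟨⟨u, hu⟩, Finset.mem_univ _, rfl⟩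
        have h4 := dot_vecE P (g ⟨u, hbs hu⟩) f
        rw [h2.2] at h4
        rw [h4, hf _ h3]
        exact CharTwo.add_self_eq_zero _
      | zero => simp
      | add x y _ _ hx hy =>
        simp only [Pi.add_apply, add_mul, Finset.sum_add_distrib, hx, hy, add_zero]
      | smul a x _ hx =>
        simp only [Pi.smul_apply, smul_eq_mul, mul_assoc, ← Finset.mul_sum, hx, mul_zero]
    intro e he
    have h2 := h1 _ (Submodule.subset_span ⟨e, he, rfl⟩)
    rw [dot_vecE] at h2
    have key : ∀ a b : ZMod 2, a + b = 0 → a = b := by decide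
    exact key _ _ h2

end graph

section planar

variable {ι : Type} [Fintype ι] [DecidableEq ι]

/-- an element of a cut -/
theorem mem_cutV {V : Type} [Fintype V] [DecidableEq V] (P : ι → V × V) (f : V → ZMod 2) (e : ι) :
    e ∈ cutV P f ↔ f (P e).1 ≠ f (P e).2 := by
  unfold cutV
  rw [Finset.mem_filter]
  exact and_iff_right (Finset.mem_univ e)

/-- The sum over the vertices. -/
theorem ind_planar {R : Type} [Fintype R] [DecidableEq R] {W : Finset ι} {𝒞 : Set (Finset ι)}
    {Z : Finset ι} (P : ι → R × R) (hcut : ∀ C ∈ 𝒞, ∃ f : R → ZMod 2, C = cutV P f)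
    (hfam : ∀ f : R → ZMod 2, cutV P f ⊆ Z → cutV P f ∈ 𝒞) (hZ : Un 𝒞 Z) (hne : Z.Nonempty)
    (hw : ∀ C ∈ 𝒞, C.Nonempty → 2 * (C ∩ W).card + 2 ≤ C.card ∧
      ((C ∩ W).Nonempty → 2 * (C ∩ W).card + 3 ≤ C.card)) :
    ∃ F ⊆ Z, Ind 𝒞 F ∧ 2 * (Z ∩ W).card + 1 ≤ F.card ∧
      ((Z ∩ W).Nonempty → 2 * (Z ∩ W).card + 2 ≤ F.card) := by
  classical
  let r : R → R → Prop := fun a b => ∃ e, e ∉ Z ∧ P e = (a, b)
  have : Finite (Quot r) := Finite.of_surjective (Quot.mk r) Quot.mk_surjective
  have := Fintype.ofFinite (Quot r)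
  let Q : ι → Quot r × Quot r := fun e => (Quot.mk r (P e).1, Quot.mk r (P e).2)
  have hQcut : ∀ g : Quot r → ZMod 2, cutV Q g = cutV P (fun x => g (Quot.mk r x)) := fun g => rfl
  have hout : ∀ e, e ∉ Z → (Q e).1 = (Q e).2 := fun e he => Quot.sound ⟨e, he, rfl⟩
  have hQsub : ∀ g : Quot r → ZMod 2, cutV Q g ⊆ Z := by
    intro g e he
    by_contra hn
    rw [mem_cutV, hout e hn] at he
    exact he rfl
  have hQmem : ∀ g : Quot r → ZMod 2, cutV Q g ∈ 𝒞 := by
    intro g
    have h1 := hQsub g
    rw [hQcut] at h1 ⊢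
    exact hfam _ h1
  -- the cuts inside `Z` come from the classes
  have hlift : ∀ C ∈ 𝒞, ∃ g : Quot r → ZMod 2, C = cutV Q g := by
    intro C hC
    obtain ⟨f, hf⟩ := hcut C hC
    have h1 : ∀ a b, r a b → f a = f b := by
      rintro a b ⟨e, he, hab⟩
      by_contra hn
      apply he
      apply hZ.1 C hC
      rw [hf, mem_cutV, hab]
      exact hn
    exact ⟨Quot.lift f h1, hf⟩
  have hloop : ∀ e ∈ Z, (Q e).1 ≠ (Q e).2 := by
    intro e he h1
    obtain ⟨C, hC, heC⟩ := hZ.2 e he
    obtain ⟨g, hg⟩ := hlift C hC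
    rw [hg, mem_cutV, h1] at heC
    exact heC rfl
  -- the stars
  let star : Quot r → Finset ι := fun v => cutV Q (Pi.single v 1)
  have hstar : ∀ e ∈ Z, ∀ v, e ∈ star v ↔ v = (Q e).1 ∨ v = (Q e).2 := by
    intro e he v
    show e ∈ cutV Q (Pi.single v 1) ↔ _
    rw [mem_cutV]
    have h1 := hloop e he
    by_cases hv1 : v = (Q e).1
    · rw [hv1, Pi.single_eq_same, Pi.single_eq_of_ne (Ne.symm h1)]
      simp
    · by_cases hv2 : v = (Q e).2
      · rw [hv2, Pi.single_eq_same, Pi.single_eq_of_ne h1]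
        simp
      · rw [Pi.single_eq_of_ne (Ne.symm hv1), Pi.single_eq_of_ne (Ne.symm hv2)]
        simp [hv1, hv2]
  have hstarZ : ∀ v, star v ⊆ Z := fun v => hQsub _
  have hcount : ∀ S ⊆ Z, ∑ v, (star v ∩ S).card = 2 * S.card := by
    intro S hS
    have h1 : ∀ v, (star v ∩ S).card = ∑ e ∈ S, if e ∈ star v then 1 else 0 := by
      intro v
      rw [Finset.inter_comm, ← Finset.filter_mem_eq_inter, Finset.card_filter]
    simp only [h1]
    rw [Finset.sum_comm]
    have h2 : ∀ e ∈ S, ∑ v, (if e ∈ star v then 1 else 0) = 2 := by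
      intro e he
      rw [← Finset.card_filter]
      have h3 : (Finset.univ.filter fun v => e ∈ star v) = {(Q e).1, (Q e).2} := by
        ext v
        rw [Finset.mem_filter, hstar e (hS he) v, Finset.mem_insert, Finset.mem_singleton]
        exact and_iff_right (Finset.mem_univ v)
      rw [h3, Finset.card_pair (hloop e (hS he))]
    rw [Finset.sum_congr rfl h2, Finset.sum_const, smul_eq_mul, mul_comm]
  let V' : Finset (Quot r) := Finset.univ.filter fun v => (star v).Nonempty
  have hV' : ∀ v, v ∈ V' ↔ (star v).Nonempty := fun v => by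
    show v ∈ Finset.univ.filter _ ↔ _
    rw [Finset.mem_filter]
    exact and_iff_right (Finset.mem_univ v)
  have hV : ∀ e ∈ Z, (Q e).1 ∈ V' ∧ (Q e).2 ∈ V' := fun e he =>
    ⟨(hV' _).2 ⟨e, (hstar e he _).2 (Or.inl rfl)⟩, (hV' _).2 ⟨e, (hstar e he _).2 (Or.inr rfl)⟩⟩
  obtain ⟨T, hTZ, hTc, hT⟩ := exists_span Q Z hne V' hV
  have hrestrict : ∀ S : Finset ι, ∑ v, (star v ∩ S).card = ∑ v ∈ V', (star v ∩ S).card := by
    intro S
    symm
    refine Finset.sum_subset (Finset.subset_univ _) fun v _ hv => ?_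
    rw [hV', Finset.not_nonempty_iff_eq_empty] at hv
    rw [hv, Finset.empty_inter, Finset.card_empty]
  have hs1 := hcount Z subset_rfl
  have hs2 := hcount (Z ∩ W) Finset.inter_subset_left
  rw [hrestrict] at hs1 hs2
  have e1 : ∀ v, star v ∩ Z = star v := fun v => Finset.inter_eq_left.2 (hstarZ v)
  have e2 : ∀ v, star v ∩ (Z ∩ W) = star v ∩ W := fun v => by
    rw [← Finset.inter_assoc, e1 v]
  simp only [e1] at hs1
  simp only [e2] at hs2
  have hw' : ∀ v ∈ V', 2 * (star v ∩ W).card + 2 ≤ (star v).card := fun v hv =>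
    (hw (star v) (hQmem _) ((hV' v).1 hv)).1
  have hsum : ∑ v ∈ V', (2 * (star v ∩ W).card + 2) ≤ ∑ v ∈ V', (star v).card :=
    Finset.sum_le_sum hw'
  rw [Finset.sum_add_distrib, ← Finset.mul_sum, hs2, hs1, Finset.sum_const, smul_eq_mul] at hsum
  have hFcard := Finset.card_sdiff_add_card_eq_card hTZ
  refine ⟨Z \ T, Finset.sdiff_subset, ?_, by omega, ?_⟩
  · intro C hC hCF
    obtain ⟨g, hg⟩ := hlift C hC
    have h1 := hT g (fun e he => by
      by_contra hn
      have h2 : e ∈ C := by rw [hg, mem_cutV]; exact hn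
      exact (Finset.mem_sdiff.1 (hCF h2)).2 he)
    rw [Finset.eq_empty_iff_forall_notMem]
    intro e he
    have h2 := h1 e (hZ.1 C hC he)
    rw [hg, mem_cutV] at he
    exact he h2
  · rintro ⟨c, hc⟩
    rw [Finset.mem_inter] at hc
    -- the two ends of `c`
    have hends := hloop c hc.1
    have hsub : ({(Q c).1, (Q c).2} : Finset (Quot r)) ⊆ V' := by
      intro v hv
      rcases Finset.mem_insert.1 hv with rfl | hv
      · exact (hV c hc.1).1
      · rw [Finset.mem_singleton.1 hv]
        exact (hV c hc.1).2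
    have hw2 : ∀ v ∈ V', 2 * (star v ∩ W).card + 2 +
        (if v ∈ ({(Q c).1, (Q c).2} : Finset (Quot r)) then 1 else 0) ≤ (star v).card := by
      intro v hv
      split_ifs with h1
      · have h2 : (star v ∩ W).Nonempty := ⟨c, Finset.mem_inter.2 ⟨(hstar c hc.1 v).2 (by
          rcases Finset.mem_insert.1 h1 with h | h
          · exact Or.inl h
          · exact Or.inr (Finset.mem_singleton.1 h)), hc.2⟩⟩
        have := (hw (star v) (hQmem _) ((hV' v).1 hv)).2 h2
        omega
      · have := hw' v hv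
        omega
    have hsum2 := Finset.sum_le_sum hw2
    rw [Finset.sum_add_distrib, Finset.sum_add_distrib, ← Finset.mul_sum, hs2, hs1,
      Finset.sum_const, smul_eq_mul, ← Finset.card_filter, Finset.filter_mem_eq_inter,
      Finset.inter_eq_right.2 hsub, Finset.card_pair hends] at hsum2
    omega

end planar

end Pool.Agent.Helper39.Thirds
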