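import Pool.Agent.Helper39.Thirds.Cuts
import Pool.Agent.Helper39.Thirds.Gauss

set_option autoImplicit false

/-!
# The even subgraphs of the state graph of a planar knotoid diagram are the cuts of the faces

The smoothing of `s` at the crossing `c` merges two of the four faces at `c`. This makes the faces
the vertices of a graph with the crossings as edges, and its cuts are the even subgraphs of the state
graph of `s`.
-/

namespace Pool.Agent.Helper39.Thirds

open Module Pool.Agent.Helper16.Knotoid Pool.Agent.Helper16.Knotoid.GaussDiagram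

variable {n : ℕ} (D : GaussDiagram n) (s : Fin n → Bool)

/-- telescoping -/
theorem telescope (g : Fin (2 * n + 1) → ZMod 2) :
    ∑ c, ((g (D.overPass c).castSucc + g (D.overPass c).succ) +
      (g (D.underPass c).castSucc + g (D.underPass c).succ)) = g 0 + g (Fin.last (2 * n)) := by
  have h1 : ∑ p : Fin (2 * n), (g p.castSucc + g p.succ) = g 0 + g (Fin.last (2 * n)) := by
    rw [Finset.sum_add_distrib]
    have e1 := Fin.sum_univ_castSucc g
    have e2 := Fin.sum_univ_succ g
    have e3 : (∑ p : Fin (2 * n), g p.castSucc) + g (Fin.last (2 * n)) =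
        g 0 + ∑ p : Fin (2 * n), g p.succ := e1.symm.trans e2
    have e4 := CharTwo.add_self_eq_zero (∑ p : Fin (2 * n), g p.succ)
    have e5 := CharTwo.add_self_eq_zero (g (Fin.last (2 * n)))
    linear_combination e3 + e4 - e5
  rw [← h1, ← Equiv.sum_comp D.pos, Fintype.sum_prod_type]
  refine Finset.sum_congr rfl fun c _ => ?_
  rw [Fintype.sum_bool]
  rfl

/-- the two faces merged by the smoothing of `s` at `c`, as sides of edges -/
def msides (c : Fin n) : (Fin (2 * n + 1) × Bool) × (Fin (2 * n + 1) × Bool) :=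
  if s c = D.sign c then (((D.fst c).succ, true), ((D.fst c).castSucc, false))
  else (((D.fst c).castSucc, true), ((D.fst c).succ, false))

/-- the jump of a function at the merged faces -/
def jump (φ : Fin (2 * n + 1) × Bool → ZMod 2) (c : Fin n) : ZMod 2 :=
  φ (msides D s c).1 + φ (msides D s c).2

/-- the jump of a function across an edge -/
def dlt (φ : Fin (2 * n + 1) × Bool → ZMod 2) (k : Fin (2 * n + 1)) : ZMod 2 :=
  φ (k, true) + φ (k, false)

variable {D s}

theorem dlt_ends {φ : Fin (2 * n + 1) × Bool → ZMod 2} (hφ : φ ∈ compat D.Corner) :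
    dlt φ 0 = 0 ∧ dlt φ (Fin.last (2 * n)) = 0 := by
  unfold dlt
  rw [mem_compat] at hφ
  rw [hφ _ _ Corner.tail, hφ _ _ Corner.head]
  exact ⟨CharTwo.add_self_eq_zero _, CharTwo.add_self_eq_zero _⟩

/-- at the strands of the smoothing of `s` the jump across the edge changes by the jump at the
merged faces -/
theorem dlt_fst {φ : Fin (2 * n + 1) × Bool → ZMod 2} (hφ : φ ∈ compat D.Corner) (c : Fin n) :
    (s c = D.sign c → dlt φ (D.fst c).castSucc + dlt φ (D.snd c).succ = jump D s φ c ∧
      dlt φ (D.snd c).castSucc + dlt φ (D.fst c).succ = jump D s φ c) ∧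
    (s c ≠ D.sign c → dlt φ (D.fst c).castSucc + dlt φ (D.snd c).castSucc = jump D s φ c ∧
      dlt φ (D.fst c).succ + dlt φ (D.snd c).succ = jump D s φ c) := by
  rw [mem_compat] at hφ
  have h1 := hφ _ _ (Corner.sw c)
  have h2 := hφ _ _ (Corner.nw c)
  have h3 := hφ _ _ (Corner.ne c)
  have h4 := hφ _ _ (Corner.se c)
  unfold jump msides dlt
  refine ⟨fun h => ?_, fun h => ?_⟩
  · rw [if_pos h, ← h1, ← h2, ← h3, ← h4]
    have e1 := CharTwo.add_self_eq_zero (φ ((D.fst c).castSucc, true))
    have e2 := CharTwo.add_self_eq_zero (φ ((D.fst c).succ, false))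
    exact ⟨by linear_combination e1, by linear_combination e2⟩
  · rw [if_neg h, ← h1, ← h2, ← h3, ← h4]
    have e1 := CharTwo.add_self_eq_zero (φ ((D.fst c).castSucc, false))
    have e2 := CharTwo.add_self_eq_zero (φ ((D.fst c).succ, true))
    exact ⟨by linear_combination e1, by linear_combination e2⟩

theorem fst_or (c : Fin n) : (D.fst c = D.overPass c ∧ D.snd c = D.underPass c) ∨
    (D.fst c = D.underPass c ∧ D.snd c = D.overPass c) := by
  unfold fst snd overPass underPass
  cases D.sign c
  · exact Or.inr ⟨rfl, rfl⟩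
  · exact Or.inl ⟨rfl, rfl⟩

/-- in terms of the over- and the under-passage -/
theorem dlt_over {φ : Fin (2 * n + 1) × Bool → ZMod 2} (hφ : φ ∈ compat D.Corner) (c : Fin n) :
    (s c = D.sign c → dlt φ (D.overPass c).castSucc + dlt φ (D.underPass c).succ = jump D s φ c ∧
      dlt φ (D.underPass c).castSucc + dlt φ (D.overPass c).succ = jump D s φ c) ∧
    (s c ≠ D.sign c →
      dlt φ (D.overPass c).castSucc + dlt φ (D.underPass c).castSucc = jump D s φ c ∧
      dlt φ (D.overPass c).succ + dlt φ (D.underPass c).succ = jump D s φ c) := by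
  obtain ⟨h1, h2⟩ := dlt_fst (s := s) hφ c
  rcases fst_or (D := D) c with ⟨e1, e2⟩ | ⟨e1, e2⟩
  · rw [e1, e2] at h1 h2
    exact ⟨h1, h2⟩
  · rw [e1, e2] at h1 h2
    refine ⟨fun h => ⟨(h1 h).2, (h1 h).1⟩, fun h => ?_⟩
    obtain ⟨h3, h4⟩ := h2 h
    exact ⟨by rw [add_comm]; exact h3, by rw [add_comm]; exact h4⟩

theorem sum_four {φ : Fin (2 * n + 1) × Bool → ZMod 2} (hφ : φ ∈ compat D.Corner)
    {χ : Fin (2 * n + 1) → ZMod 2} (hχ : χ ∈ compat (D.Join s)) (c : Fin n) :
    (χ (D.overPass c).castSucc * dlt φ (D.overPass c).castSucc +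
      χ (D.overPass c).succ * dlt φ (D.overPass c).succ) +
    (χ (D.underPass c).castSucc * dlt φ (D.underPass c).castSucc +
      χ (D.underPass c).succ * dlt φ (D.underPass c).succ) =
    jump D s φ c * (χ (D.overPass c).castSucc + χ (D.overPass c).succ) := by
  rw [mem_compat] at hχ
  obtain ⟨h1, h2⟩ := dlt_over (s := s) hφ c
  by_cases h : s c = D.sign c
  · obtain ⟨h3, h4⟩ := h1 h
    rw [← hχ _ _ (Join.oriented₁ c h), hχ _ _ (Join.oriented₂ c h)]
    linear_combination (χ (D.overPass c).castSucc) * h3 + (χ (D.overPass c).succ) * h4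
  · obtain ⟨h3, h4⟩ := h2 h
    rw [← hχ _ _ (Join.unoriented₁ c h), ← hχ _ _ (Join.unoriented₂ c h)]
    linear_combination (χ (D.overPass c).castSucc) * h3 + (χ (D.overPass c).succ) * h4

open Classical in
/-- the incidence matrix of the state graph -/
noncomputable def inc (D : GaussDiagram n) (s : Fin n → Bool) (q : Quot (D.Join s)) (c : Fin n) :
    ZMod 2 := (if D.end₁ s c = q then 1 else 0) + if D.end₂ s c = q then 1 else 0

theorem jump_even {φ : Fin (2 * n + 1) × Bool → ZMod 2} (hφ : φ ∈ compat D.Corner)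
    (q : Quot (D.Join s)) : ∑ c, inc D s q c * jump D s φ c = 0 := by
  classical
  have hχ : (fun k => if Quot.mk (D.Join s) k = q then (1 : ZMod 2) else 0) ∈
      compat (D.Join s) := by
    rw [mem_compat]
    intro a b hab
    show (if Quot.mk (D.Join s) a = q then (1 : ZMod 2) else 0) =
      if Quot.mk (D.Join s) b = q then 1 else 0
    rw [Quot.sound hab]
  have h1 := telescope D fun k => (if Quot.mk (D.Join s) k = q then (1 : ZMod 2) else 0) * dlt φ k
  rw [(dlt_ends hφ).1, (dlt_ends hφ).2, mul_zero, mul_zero, add_zero] at h1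
  rw [← h1]
  refine Finset.sum_congr rfl fun c _ => ?_
  rw [sum_four hφ hχ c, mul_comm]
  rfl

/-- the functions with even boundary -/
noncomputable def evenMod (D : GaussDiagram n) (s : Fin n → Bool) :
    Submodule (ZMod 2) (Fin n → ZMod 2) where
  carrier := {x | ∀ q, ∑ c, inc D s q c * x c = 0}
  add_mem' := by
    intro x y hx hy q
    simp only [Pi.add_apply, mul_add, Finset.sum_add_distrib, hx q, hy q, add_zero]
  zero_mem' := by
    intro q
    simp
  smul_mem' := by
    intro a x hx q
    have h1 : ∀ c, inc D s q c * (a • x) c = a * (inc D s q c * x c) := fun c => by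
      rw [Pi.smul_apply, smul_eq_mul]
      ring
    simp only [h1, ← Finset.mul_sum, hx q, mul_zero]

/-- the jumps as a linear map -/
noncomputable def jumpMap (D : GaussDiagram n) (s : Fin n → Bool) :
    compat D.Corner →ₗ[ZMod 2] (Fin n → ZMod 2) where
  toFun φ := jump D s φ.1
  map_add' φ ψ := by
    funext c
    show jump D s (φ.1 + ψ.1) c = jump D s φ.1 c + jump D s ψ.1 c
    unfold jump
    simp only [Pi.add_apply]
    ring
  map_smul' a φ := by
    funext c
    show jump D s (a • φ.1) c = a • jump D s φ.1 c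
    unfold jump
    simp only [Pi.smul_apply, smul_eq_mul]
    ring

/-- `dim ker ≤ |s|` -/
theorem finrank_ker_jump (D : GaussDiagram n) (s : Fin n → Bool) :
    finrank (ZMod 2) (LinearMap.ker (jumpMap D s)) ≤ D.comps s := by
  have hc : D.comps s = finrank (ZMod 2) (compat (D.Join s)) := (finrank_compat _).symm
  rw [hc]
  have hmem : ∀ φ : LinearMap.ker (jumpMap D s),
      (fun k => dlt φ.1.1 k + φ.1.1 (0, true)) ∈ compat (D.Join s) := by
    intro φ
    have h0 : ∀ c, jump D s φ.1.1 c = 0 := fun c => congrFun (LinearMap.mem_ker.1 φ.2) c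
    have key : ∀ a b : ZMod 2, a + b = 0 → a = b := by decide
    rw [mem_compat]
    intro a b hab
    show dlt φ.1.1 a + φ.1.1 (0, true) = dlt φ.1.1 b + φ.1.1 (0, true)
    congr 1
    cases hab with
    | oriented₁ c h => exact key _ _ ((((dlt_over φ.1.2 c).1 h).1).trans (h0 c))
    | oriented₂ c h => exact key _ _ ((((dlt_over φ.1.2 c).1 h).2).trans (h0 c))
    | unoriented₁ c h => exact key _ _ ((((dlt_over φ.1.2 c).2 h).1).trans (h0 c))
    | unoriented₂ c h => exact key _ _ ((((dlt_over φ.1.2 c).2 h).2).trans (h0 c))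
  let ρ : LinearMap.ker (jumpMap D s) →ₗ[ZMod 2] compat (D.Join s) :=
    { toFun := fun φ => ⟨_, hmem φ⟩
      map_add' := fun φ ψ => by
        apply Subtype.ext
        funext k
        show dlt (φ.1.1 + ψ.1.1) k + (φ.1.1 + ψ.1.1) (0, true) =
          (dlt φ.1.1 k + φ.1.1 (0, true)) + (dlt ψ.1.1 k + ψ.1.1 (0, true))
        unfold dlt
        simp only [Pi.add_apply]
        ring
      map_smul' := fun a φ => by
        apply Subtype.ext
        funext k
        show dlt (a • φ.1.1) k + (a • φ.1.1) (0, true) = a • (dlt φ.1.1 k + φ.1.1 (0, true))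
        unfold dlt
        simp only [Pi.smul_apply, smul_eq_mul]
        ring }
  apply LinearMap.finrank_le_finrank_of_injective (f := ρ)
  rw [← LinearMap.ker_eq_bot, LinearMap.ker_eq_bot']
  intro φ hφ
  have h1 : ∀ k, dlt φ.1.1 k + φ.1.1 (0, true) = 0 := fun k =>
    congrFun (congrArg Subtype.val hφ) k
  have hψ := φ.1.2
  have h2 : φ.1.1 (0, true) = 0 := by
    have := h1 0
    rwa [(dlt_ends hψ).1, zero_add] at this
  have h3 : ∀ k, φ.1.1 (k, true) = φ.1.1 (k, false) := by
    intro k
    have h4 := h1 k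
    rw [h2, add_zero] at h4
    have key : ∀ a b : ZMod 2, a + b = 0 → a = b := by decide
    exact key _ _ h4
  have hcomp := mem_compat.1 hψ
  have hstep : ∀ p : Fin (2 * n), φ.1.1 (p.succ, true) = φ.1.1 (p.castSucc, true) := by
    intro p
    obtain ⟨⟨c, b⟩, rfl⟩ := D.pos.surjective p
    have e1 := hcomp _ _ (Corner.sw c)
    have e2 := hcomp _ _ (Corner.nw c)
    have e3 := hcomp _ _ (Corner.ne c)
    have e4 := hcomp _ _ (Corner.se c)
    rw [← h3] at e2 e3
    have e3' : φ.1.1 ((D.fst c).succ, true) = φ.1.1 ((D.snd c).castSucc, true) := by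
      rw [h3 (D.snd c).castSucc, ← e3]
    have e5 : φ.1.1 ((D.fst c).succ, true) = φ.1.1 ((D.fst c).castSucc, true) := by
      rw [e1, e2]
    have e6 : φ.1.1 ((D.snd c).succ, true) = φ.1.1 ((D.snd c).castSucc, true) := by
      rw [← e2, e3']
    have h7 : D.pos (c, b) = D.fst c ∨ D.pos (c, b) = D.snd c := by
      unfold fst snd
      cases b <;> cases D.sign c <;> simp
    rcases h7 with h7 | h7
    · rw [h7]; exact e5
    · rw [h7]; exact e6
  have h4 : ∀ k : ℕ, ∀ hk : k < 2 * n + 1, φ.1.1 (⟨k, hk⟩, true) = 0 := by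
    intro k
    induction k with
    | zero => exact fun _ => h2
    | succ k ih =>
      intro hk
      have h5 := hstep ⟨k, by omega⟩
      exact h5.trans (ih (by omega))
  apply Subtype.ext
  apply Subtype.ext
  funext x
  obtain ⟨k, b⟩ := x
  cases b
  · show φ.1.1 (k, false) = 0
    rw [← h3]
    exact h4 k.1 k.2
  · exact h4 k.1 k.2

/-- the dimension of the space of even sets -/
theorem finrank_even (D : GaussDiagram n) (s : Fin n → Bool) :
    finrank (ZMod 2) (evenMod D s) + D.comps s ≤ n + 1 := by
  classical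
  have : Finite (Quot (D.Join s)) := Finite.of_surjective (Quot.mk _) Quot.mk_surjective
  have := Fintype.ofFinite (Quot (D.Join s))
  let M : Matrix (Quot (D.Join s)) (Fin n) (ZMod 2) := Matrix.of fun q c => inc D s q c
  have h1 : evenMod D s = LinearMap.ker M.mulVecLin := by
    ext x
    rw [LinearMap.mem_ker]
    constructor
    · intro hx
      funext q
      exact hx q
    · intro hx q
      exact congrFun hx q
  have h2 := LinearMap.finrank_range_add_finrank_ker M.mulVecLin
  have h3 := LinearMap.finrank_range_add_finrank_ker M.transpose.mulVecLin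
  have h4 : finrank (ZMod 2) (LinearMap.range M.transpose.mulVecLin) =
      finrank (ZMod 2) (LinearMap.range M.mulVecLin) := Matrix.rank_transpose M
  have h5 : finrank (ZMod 2) (LinearMap.ker M.transpose.mulVecLin) ≤ 1 := by
    let ρ : LinearMap.ker M.transpose.mulVecLin →ₗ[ZMod 2] ZMod 2 :=
      { toFun := fun ψ => ψ.1 (Quot.mk _ 0)
        map_add' := fun _ _ => rfl
        map_smul' := fun _ _ => rfl }
    have hinj : Function.Injective ρ := by
      rw [← LinearMap.ker_eq_bot, LinearMap.ker_eq_bot']
      intro ψ hψ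
      have h6 : ∀ c, ψ.1 (D.end₁ s c) = ψ.1 (D.end₂ s c) := by
        intro c
        have h7 := congrFun (LinearMap.mem_ker.1 ψ.2) c
        have h8 : ∑ q, inc D s q c * ψ.1 q = 0 := h7
        unfold inc at h8
        simp only [add_mul, ite_mul, one_mul, zero_mul, Finset.sum_add_distrib,
          Finset.sum_ite_eq, Finset.mem_univ, if_true] at h8
        have key : ∀ a b : ZMod 2, a + b = 0 → a = b := by decide
        exact key _ _ h8
      have hstep : ∀ p : Fin (2 * n), ψ.1 (Quot.mk _ p.succ) = ψ.1 (Quot.mk _ p.castSucc) := by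
        intro p
        obtain ⟨⟨c, b⟩, rfl⟩ := D.pos.surjective p
        have e1 : ψ.1 (Quot.mk _ (D.overPass c).castSucc) = ψ.1 (Quot.mk _ (D.overPass c).succ) :=
          h6 c
        cases b
        · show ψ.1 (Quot.mk _ (D.underPass c).succ) = ψ.1 (Quot.mk _ (D.underPass c).castSucc)
          by_cases h : s c = D.sign c
          · rw [← Quot.sound (Join.oriented₁ c h), Quot.sound (Join.oriented₂ c h)]
            exact e1
          · rw [← Quot.sound (Join.unoriented₁ c h), ← Quot.sound (Join.unoriented₂ c h)]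
            exact e1.symm
        · exact e1.symm
      have h7 : ∀ k : ℕ, ∀ hk : k < 2 * n + 1, ψ.1 (Quot.mk _ ⟨k, hk⟩) = 0 := by
        intro k
        induction k with
        | zero => exact fun _ => hψ
        | succ k ih =>
          intro hk
          exact (hstep ⟨k, by omega⟩).trans (ih (by omega))
      apply Subtype.ext
      funext q
      induction q using Quot.ind with
      | mk a => exact h7 a.1 a.2
    have h8 := LinearMap.finrank_le_finrank_of_injective hinj
    rwa [finrank_self] at h8
  rw [finrank_fintype_fun_eq_card, Fintype.card_fin] at h2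
  rw [finrank_fintype_fun_eq_card] at h3
  have h6 : D.comps s = Fintype.card (Quot (D.Join s)) := Nat.card_eq_fintype_card
  rw [h1]
  omega

/-- every even set is a cut -/
theorem exists_jump (hD : D.Planar) {x : Fin n → ZMod 2} (hx : x ∈ evenMod D s) :
    ∃ φ ∈ compat D.Corner, jump D s φ = x := by
  have h1 : LinearMap.range (jumpMap D s) ≤ evenMod D s := by
    rintro _ ⟨φ, rfl⟩ q
    exact jump_even φ.2 q
  have h2 := LinearMap.finrank_range_add_finrank_ker (jumpMap D s)
  have h3 := finrank_ker_jump D s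
  have h4 := finrank_even D s
  have h5 : finrank (ZMod 2) (compat D.Corner) = n + 1 := (finrank_compat _).trans hD
  have h6 := Submodule.eq_of_le_of_finrank_le h1 (by omega)
  rw [← h6] at hx
  obtain ⟨φ, hφ⟩ := hx
  exact ⟨φ.1, φ.2, hφ⟩

end Pool.Agent.Helper39.Thirds
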