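import Pool.Agent.Helper39.Thirds.Gauss
import Pool.Agent.Helper16.Jones.UnbMain
import Pool.Agent.Helper16.Sparse.SPU

set_option autoImplicit false

/-!
# Knot diagrams: from the knotoid obtained by cutting at the base point
-/

namespace Pool.Agent.Helper39.Thirds

open LaurentPolynomial Pool.Agent.Helper16.Jones Pool.Agent.Helper16.Knotoid

variable {n : ℕ}

/-- the knotoid diagram obtained by cutting at the base point -/
def toG (D : KnotDiagram n) : GaussDiagram n := ⟨D.pos, D.sign⟩

/-- the ends of a knotoid diagram lie on the same component of every state -/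
theorem ends_eq (G : GaussDiagram n) (s : Fin n → Bool) (φ : Fin (2 * n + 1) → ZMod 2)
    (hφ : ∀ a b, G.Join s a b → φ a = φ b) : φ 0 = φ (Fin.last (2 * n)) := by
  have h1 : ∑ p : Fin (2 * n), (φ p.castSucc + φ p.succ) = φ 0 + φ (Fin.last (2 * n)) := by
    rw [Finset.sum_add_distrib]
    have e1 := Fin.sum_univ_castSucc φ
    have e2 := Fin.sum_univ_succ φ
    have e3 : (∑ p : Fin (2 * n), φ p.castSucc) + φ (Fin.last (2 * n)) =
        φ 0 + ∑ p : Fin (2 * n), φ p.succ := e1.symm.trans e2
    have e4 := CharTwo.add_self_eq_zero (∑ p : Fin (2 * n), φ p.succ)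
    have e5 := CharTwo.add_self_eq_zero (φ (Fin.last (2 * n)))
    linear_combination e3 + e4 - e5
  have h2 : ∑ p : Fin (2 * n), (φ p.castSucc + φ p.succ) = 0 := by
    rw [← Equiv.sum_comp G.pos, Fintype.sum_prod_type]
    refine Finset.sum_eq_zero fun c _ => ?_
    rw [Fintype.sum_bool]
    show (φ (G.overPass c).castSucc + φ (G.overPass c).succ) +
      (φ (G.underPass c).castSucc + φ (G.underPass c).succ) = 0
    by_cases h : s c = G.sign c
    · rw [hφ _ _ (GaussDiagram.Join.oriented₁ c h), hφ _ _ (GaussDiagram.Join.oriented₂ c h)]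
      have e1 := CharTwo.add_self_eq_zero (φ (G.underPass c).succ)
      have e2 := CharTwo.add_self_eq_zero (φ (G.overPass c).succ)
      linear_combination e1 + e2
    · rw [hφ _ _ (GaussDiagram.Join.unoriented₁ c h), hφ _ _ (GaussDiagram.Join.unoriented₂ c h)]
      have e1 := CharTwo.add_self_eq_zero (φ (G.underPass c).castSucc)
      have e2 := CharTwo.add_self_eq_zero (φ (G.underPass c).succ)
      linear_combination e1 + e2
  rw [h2] at h1
  have e5 := CharTwo.add_self_eq_zero (φ (Fin.last (2 * n)))
  linear_combination (-1 : ZMod 2) * h1 - e5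

theorem mk_ends (G : GaussDiagram n) (s : Fin n → Bool) :
    (Quot.mk (G.Join s) 0 : Quot (G.Join s)) = Quot.mk (G.Join s) (Fin.last (2 * n)) := by
  classical
  have h := ends_eq G s (fun x => if Quot.mk (G.Join s) x = Quot.mk (G.Join s) 0 then 1 else 0)
    (fun a b hab => by
      show (if Quot.mk (G.Join s) a = Quot.mk (G.Join s) 0 then (1 : ZMod 2) else 0) =
        if Quot.mk (G.Join s) b = Quot.mk (G.Join s) 0 then 1 else 0
      rw [Quot.sound hab])
  by_contra hne
  simp only [if_true] at h
  rw [if_neg (Ne.symm hne)] at h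
  exact one_ne_zero h

variable (D : KnotDiagram n) (s : Fin n → Bool)

/-- the circles of a state of the knot diagram are the components of the state of the knotoid -/
def circleEquiv : Quot ((toG D).Join s) ≃ D.Circle s where
  toFun := Quot.map id (by
    intro a b h
    cases h with
    | oriented₁ c h => exact KnotDiagram.Join.oriented₁ c h
    | oriented₂ c h => exact KnotDiagram.Join.oriented₂ c h
    | unoriented₁ c h => exact KnotDiagram.Join.unoriented₁ c h
    | unoriented₂ c h => exact KnotDiagram.Join.unoriented₂ c h)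
  invFun := Quot.lift (fun a => Quot.mk _ a) (by
    intro a b h
    cases h with
    | base => exact mk_ends (toG D) s
    | oriented₁ c h => exact Quot.sound (GaussDiagram.Join.oriented₁ (D := toG D) c h)
    | oriented₂ c h => exact Quot.sound (GaussDiagram.Join.oriented₂ (D := toG D) c h)
    | unoriented₁ c h => exact Quot.sound (GaussDiagram.Join.unoriented₁ (D := toG D) c h)
    | unoriented₂ c h => exact Quot.sound (GaussDiagram.Join.unoriented₂ (D := toG D) c h))
  left_inv := by
    intro q
    induction q using Quot.ind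
    rfl
  right_inv := by
    intro q
    induction q using Quot.ind
    rfl

theorem circles_eq : D.circles s = (toG D).comps s :=
  Nat.card_congr (circleEquiv D s).symm

theorem even_iff_even (C : Finset (Fin n)) : D.IsEven s C ↔ (toG D).IsEven s C := by
  classical
  have key : ∀ q : Quot ((toG D).Join s),
      (C.filter fun c => D.end₁ s c = circleEquiv D s q) =
        (C.filter fun c => (toG D).end₁ s c = q) ∧
      (C.filter fun c => D.end₂ s c = circleEquiv D s q) =
        (C.filter fun c => (toG D).end₂ s c = q) := by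
    intro q
    refine ⟨Finset.filter_congr fun c _ => ?_, Finset.filter_congr fun c _ => ?_⟩
    · exact (circleEquiv D s).injective.eq_iff (a := (toG D).end₁ s c)
    · exact (circleEquiv D s).injective.eq_iff (a := (toG D).end₂ s c)
  constructor
  · intro h q
    have h1 := h (circleEquiv D s q)
    rw [(key q).1, (key q).2] at h1
    exact h1
  · intro h q
    obtain ⟨q, rfl⟩ := (circleEquiv D s).surjective q
    rw [(key q).1, (key q).2]
    exact h q

theorem cycleUnion_iff (Z : Finset (Fin n)) :
    D.IsCycleUnion s Z ↔ (toG D).IsCycleUnion s Z := by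
  unfold KnotDiagram.IsCycleUnion GaussDiagram.IsCycleUnion
  simp only [even_iff_even]

theorem excess_eq (Z : Finset (Fin n)) : D.excess s Z = (toG D).excess s Z := by
  unfold KnotDiagram.excess GaussDiagram.excess
  rw [circles_eq, circles_eq]
  rfl

theorem fPoly_eq : D.fPoly = (toG D).normalizedBracket := by
  unfold KnotDiagram.fPoly GaussDiagram.normalizedBracket KnotDiagram.bracket GaussDiagram.bracket
  simp only [circles_eq]
  rfl

/-- for knots a unit is `1` -/
theorem f_eq_one (hf : ∃ ε k : ℤ, D.fPoly = C ε * T k) : D.fPoly = 1 := by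
  obtain ⟨ε, k, hk⟩ := hf
  obtain ⟨h1, h2⟩ := Pool.Agent.Helper16.Sparse.thm_SPU n (toG D) ε k ((fPoly_eq D).symm.trans hk)
  rw [hk, h1, h2, T_zero, map_one, one_mul]

variable {D s}

/-- A dominant state of a knot diagram is strictly unbalanced. -/
theorem KnotDominant.strictlyUnbalanced {X : Bool} (h : KnotDominant D X s) :
    D.StrictlyUnbalanced s := by
  have h' : ∀ C : Finset (Fin n), C.Nonempty → (toG D).IsEven s C →
      C.card ≠ 1 ∧ 3 * GaussDiagram.num s (!X) C < C.card :=
    fun C hne hC => h C hne ((even_iff_even D s C).2 hC)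
  refine ⟨fun Z hZ => ?_, fun Z hZ ht hf => ?_⟩
  · have h1 := (excess_bound h' ((cycleUnion_iff D s Z).1 hZ)).1
    rw [excess_eq]
    have h2 : (KnotDiagram.num s true Z : ℤ) = GaussDiagram.num s true Z := rfl
    have h3 : (KnotDiagram.num s false Z : ℤ) = GaussDiagram.num s false Z := rfl
    rw [h2, h3]
    omega
  · have h0 : 2 ≤ GaussDiagram.num s (!X) Z := by
      cases X
      · exact ht
      · exact hf
    have h1 := (excess_bound h' ((cycleUnion_iff D s Z).1 hZ)).2 h0
    rw [excess_eq]
    have h2 : (KnotDiagram.num s true Z : ℤ) = GaussDiagram.num s true Z := rfl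
    have h3 : (KnotDiagram.num s false Z : ℤ) = GaussDiagram.num s false Z := rfl
    rw [h2, h3]
    omega

end Pool.Agent.Helper39.Thirds
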