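import Pool.Agent.Helper39.Thirds.MajDefs
import Pool.Agent.Helper39.Thirds.Faces
import Pool.Agent.Helper16.Sparse.Dom

set_option autoImplicit false

/-!
# Majority states of planar knotoid diagrams are unbalanced, strictly on mixed sets
-/

namespace Pool.Agent.Helper39.Thirds

open Pool.Agent.Helper16.Knotoid Pool.Agent.Helper16.Knotoid.GaussDiagram
open Pool.Agent.Helper16.Sparse (dom_loop MixedStrict)
open scoped symmDiff

variable {n : ℕ} {D : GaussDiagram n} {s : Fin n → Bool}

theorem even_single_iff (c : Fin n) : D.IsEven s {c} ↔ D.end₁ s c = D.end₂ s c := by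
  classical
  rw [even_iff]
  constructor
  · intro h
    have h1 := h (D.end₁ s c)
    rw [Finset.sum_singleton, if_pos rfl] at h1
    by_contra hne
    rw [if_neg (Ne.symm hne), add_zero] at h1
    exact one_ne_zero h1
  · intro h q
    rw [Finset.sum_singleton, h]
    exact CharTwo.add_self_eq_zero _

/-- the faces as vertices -/
def faceP (D : GaussDiagram n) (s : Fin n → Bool) (c : Fin n) : Quot D.Corner × Quot D.Corner :=
  (Quot.mk _ (msides D s c).1, Quot.mk _ (msides D s c).2)

theorem even_of_jump {φ : Fin (2 * n + 1) × Bool → ZMod 2} (hφ : φ ∈ compat D.Corner)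
    {C : Finset (Fin n)} (hC : ∀ c, c ∈ C ↔ jump D s φ c ≠ 0) : D.IsEven s C := by
  classical
  rw [even_iff]
  intro q
  have key : ∀ a : ZMod 2, a ≠ 0 → a = 1 := by decide
  refine Eq.trans ?_ (jump_even hφ q)
  have h2 : ∑ c ∈ C, inc D s q c * jump D s φ c = ∑ c, inc D s q c * jump D s φ c := by
    refine Finset.sum_subset (Finset.subset_univ C) fun c _ hc => ?_
    have h1 : jump D s φ c = 0 := by
      by_contra h
      exact hc ((hC c).2 h)
    rw [h1, mul_zero]
  rw [← h2]
  refine Finset.sum_congr rfl fun c hc => ?_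
  rw [key _ ((hC c).1 hc), mul_one]
  rfl

theorem jump_of_even (hD : D.Planar) {C : Finset (Fin n)} (hC : D.IsEven s C) :
    ∃ φ ∈ compat D.Corner, ∀ c, c ∈ C ↔ jump D s φ c ≠ 0 := by
  classical
  have h1 : (fun c => if c ∈ C then (1 : ZMod 2) else 0) ∈ evenMod D s := by
    intro q
    rw [even_iff] at hC
    refine Eq.trans ?_ (hC q)
    simp only [mul_ite, mul_one, mul_zero]
    rw [← Finset.sum_filter, Finset.filter_mem_eq_inter, Finset.univ_inter]
    rfl
  obtain ⟨φ, hφ, h2⟩ := exists_jump hD h1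
  refine ⟨φ, hφ, fun c => ?_⟩
  rw [h2]
  by_cases h : c ∈ C
  · simp [h]
  · simp [h]

/-- The forests in unions of cycles without loops. -/
theorem exists_forest (hD : D.Planar) {W Z : Finset (Fin n)} (hZ : Un (evens D s Z) Z)
    (hne : Z.Nonempty)
    (hw : ∀ C ∈ evens D s Z, C.Nonempty → 2 * (C ∩ W).card + 2 ≤ C.card ∧
      ((C ∩ W).Nonempty → 2 * (C ∩ W).card + 3 ≤ C.card)) :
    ∃ F ⊆ Z, Ind (evens D s Z) F ∧ 2 * (Z ∩ W).card + 1 ≤ F.card ∧
      ((Z ∩ W).Nonempty → 2 * (Z ∩ W).card + 2 ≤ F.card) := by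
  classical
  have : Finite (Quot D.Corner) := Finite.of_surjective (Quot.mk _) Quot.mk_surjective
  have := Fintype.ofFinite (Quot D.Corner)
  have key : ∀ a b : ZMod 2, a + b ≠ 0 ↔ a ≠ b := by decide
  have hmem : ∀ (f : Quot D.Corner → ZMod 2) (c : Fin n), c ∈ cutV (faceP D s) f ↔
      jump D s (fun x => f (Quot.mk _ x)) c ≠ 0 := by
    intro f c
    rw [mem_cutV]
    exact (key _ _).symm
  have hcomp : ∀ f : Quot D.Corner → ZMod 2, (fun x => f (Quot.mk _ x)) ∈ compat D.Corner := by
    intro f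
    rw [mem_compat]
    intro a b hab
    exact congrArg f (Quot.sound hab)
  refine ind_planar (faceP D s) ?_ ?_ hZ hne hw
  · intro C hC
    obtain ⟨φ, hφ, h1⟩ := jump_of_even hD hC.2
    refine ⟨Quot.lift φ (mem_compat.1 hφ), ?_⟩
    ext c
    rw [hmem, h1]
  · intro f hf
    exact ⟨hf, even_of_jump (hcomp f) (hmem f)⟩

theorem Majority.unbalanced {X : Bool} (hD : D.Planar) (h : Majority D X s) :
    D.Unbalanced s ∧ MixedStrict D s := by
  classical
  obtain ⟨hsw, hloopX, hcyc⟩ := h
  have key : ∀ Z : Finset (Fin n), D.IsCycleUnion s Z →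
      D.excess s Z + 1 ≤ 2 * |(num s true Z : ℤ) - num s false Z| ∧
      (0 < num s (!X) Z → D.excess s Z + 4 ≤ 2 * |(num s true Z : ℤ) - num s false Z|) := by
    intro Z hZ
    have hl : ∀ c ∈ Z, D.exn s {c} ≤ 1 := by
      intro c _
      have h1 := hsw c
      have h2 := D.exn_eq s {c}
      unfold excess at h2
      rw [Finset.card_singleton] at h2
      have h3 : (D.comps (change s {c}) : ℤ) ≤ D.comps s := by exact_mod_cast h1
      have h4 : (D.exn s {c} : ℤ) ≤ 1 := by rw [h2]; push_cast; omega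
      exact_mod_cast h4
    set W : Finset (Fin n) := Finset.univ.filter fun c => s c = !X with hW
    set Z' : Finset (Fin n) := Z.filter fun c => ¬ D.IsEven s {c} with hZ'
    have hZZ : Z' ⊆ Z := Finset.filter_subset _ _
    have hnl : ∀ c ∈ Z', D.end₁ s c ≠ D.end₂ s c := fun c hc h1 =>
      (Finset.mem_filter.1 hc).2 ((even_single_iff c).2 h1)
    have hw : ∀ C ∈ evens D s Z', C.Nonempty → 2 * (C ∩ W).card + 2 ≤ C.card ∧
        ((C ∩ W).Nonempty → 2 * (C ∩ W).card + 3 ≤ C.card) := by
      intro C hC hne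
      have h1 := hcyc C hne (fun c hc => hnl c (hC.1 hc)) hC.2
      have h2 := num_add (s := s) X C
      have h3 := inter_wrong (s := s) X C
      rw [← hW] at h3
      refine ⟨by omega, fun h4 => ?_⟩
      have h5 := h1.2 (by rw [← h3]; exact Finset.card_pos.2 h4)
      omega
    have hnW : num s (!X) Z = (Z' ∩ W).card := by
      rw [← inter_wrong X Z, ← hW]
      congr 1
      ext x
      rw [Finset.mem_inter, Finset.mem_inter]
      refine ⟨fun ⟨h1, h2⟩ => ⟨Finset.mem_filter.2 ⟨h1, fun h3 => ?_⟩, h2⟩,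
        fun ⟨h1, h2⟩ => ⟨hZZ h1, h2⟩⟩
      have h4 := hloopX x ((even_single_iff x).1 h3)
      rw [hW, Finset.mem_filter, h4] at h2
      exact absurd h2.2 (by cases X <;> decide)
    have hUn : Un (evens D s Z') Z' := by
      refine ⟨fun C hC => hC.1, fun c hc => ?_⟩
      obtain ⟨C, h1, h2, h3⟩ := hZ.2 c (hZZ hc)
      obtain ⟨K, hK, hKC, hcK, hind⟩ := exists_circuit (fam_evens (D := D) (s := s) Z)
        (C := C) ⟨h1, h2⟩ h3
      refine ⟨K, ⟨fun d hd => ?_, hK.2⟩, hcK⟩
      rw [hZ', Finset.mem_filter]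
      refine ⟨hK.1 hd, fun h4 => ?_⟩
      by_cases hdc : d = c
      · rw [hdc] at h4
        exact (Finset.mem_filter.1 hc).2 h4
      · have h5 := hind {d} ⟨Finset.singleton_subset_iff.2 (hK.1 hd), h4⟩
          (Finset.singleton_subset_iff.2 (Finset.mem_erase.2 ⟨hdc, hd⟩))
        exact Finset.singleton_ne_empty d h5
    have habs := num_abs (s := s) X Z
    rcases Finset.eq_empty_or_nonempty Z' with h0 | h0
    · -- only loops
      have hm : num s (!X) Z = 0 := by
        rw [hnW, h0, Finset.empty_inter, Finset.card_empty]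
      refine ⟨?_, fun h1 => absurd hm (by omega)⟩
      obtain ⟨c, hc⟩ := hZ.1
      have hce : D.IsEven s {c} := by
        by_contra h1
        have h2 : c ∈ Z' := Finset.mem_filter.2 ⟨hc, h1⟩
        rw [h0] at h2
        exact Finset.notMem_empty c h2
      have h1 := exn_sub (D := D) (s := s) (Finset.singleton_subset_iff.2 hc)
      have h2 := hl c hc
      rw [Finset.card_singleton] at h1
      rw [habs, hm, abs_of_nonneg (by simp), ← D.exn_eq]
      push_cast
      omega
    · obtain ⟨F, hFZ, hF, hF1, hF2⟩ := exists_forest hD hUn h0 hw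
      rw [← hnW] at hF1 hF2
      have hfst : Fst D s F := fun E hE hEe => hF E ⟨hE.trans hFZ, hEe⟩ hE
      have h1 := exn_sub (D := D) (s := s) (hFZ.trans hZZ)
      rw [fst_exn hfst] at h1
      have h3 := Finset.card_le_card (hFZ.trans hZZ)
      rw [habs, abs_of_nonneg (by omega), ← D.exn_eq]
      refine ⟨by omega, fun h4 => ?_⟩
      have h5 := hF2 (Finset.card_pos.1 (by rw [← hnW]; exact h4))
      omega
  refine ⟨fun Z hZ => ?_, fun Z hZ ht hf => ?_⟩
  · have := (key Z hZ).1
    omega
  · have h0 : 0 < num s (!X) Z := by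
      cases X
      · exact ht
      · exact hf
    have := (key Z hZ).2 h0
    omega

end Pool.Agent.Helper39.Thirds
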