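import Pool.Agent.Helper16.KUnb.Defs

set_option autoImplicit false

/-!
# States with a majority of one kind of smoothing in every cycle: definition
-/

namespace Pool.Agent.Helper39.Thirds

open Pool.Agent.Helper16.Knotoid Pool.Agent.Helper16.Knotoid.GaussDiagram

/-- The smoothing `X` has the majority in the state `s`: switching one smoothing of `s` does not
increase the number of components, the loops of the state graph of `s` are `X`-smoothings, and every
other cycle of the state graph contains at least two more `X`-smoothings than other smoothings, and
at least three more if it contains other smoothings. (In terms of even subgraphs without loops, the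
unions of edge-disjoint cycles.) -/
def Majority {n : ℕ} (D : GaussDiagram n) (X : Bool) (s : Fin n → Bool) : Prop :=
  (∀ c, D.comps (change s {c}) ≤ D.comps s) ∧
  (∀ c, D.end₁ s c = D.end₂ s c → s c = X) ∧
  ∀ C : Finset (Fin n), C.Nonempty → (∀ c ∈ C, D.end₁ s c ≠ D.end₂ s c) → D.IsEven s C →
    num s (!X) C + 2 ≤ num s X C ∧ (0 < num s (!X) C → num s (!X) C + 3 ≤ num s X C)

end Pool.Agent.Helper39.Thirds
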