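import Pool.Agent.Helper39.Thirds.Knot

set_option autoImplicit false

/-!
# Series classes whose sizes grow fast
-/

namespace Pool.Agent.Helper39.Thirds

open LaurentPolynomial Pool.Agent.Helper16.Jones

variable {n : ℕ} {D : KnotDiagram n} {s : Fin n → Bool}

/-- The number of crossings in the class `i`. -/
def size {n m : ℕ} (r : Fin n → Fin m) (i : Fin m) : ℕ :=
  (Finset.univ.filter fun c => r c = i).card

/-- The crossings are divided into classes (numbered by `r`) such that every cycle of the state
graph of `s` which goes through a crossing goes through its whole class, `s` has only one kind of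
smoothing in each class, and the sizes `t_1, …, t_m` of the classes satisfy
`t_i ≥ t_1 + ⋯ + t_(i-1) + i + 2` (here `i = 0, …, m - 1`, hence `i + 3` instead of `i + 2`). -/
def Spread (D : KnotDiagram n) (s : Fin n → Bool) : Prop :=
  ∃ (m : ℕ) (r : Fin n → Fin m), D.Series s r ∧ (∀ c d, r c = r d → s c = s d) ∧
    ∀ i : Fin m, (∑ j ∈ Finset.univ.filter fun j => j < i, size r j) + (i + 3) ≤ size r i

/-- the sum of the sizes of the classes in `M` -/
theorem card_class {m : ℕ} (r : Fin n → Fin m) {C : Finset (Fin n)}
    (hC : ∀ c d, r c = r d → c ∈ C → d ∈ C) : C.card = ∑ j ∈ C.image r, size r j := by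
  classical
  rw [Finset.card_eq_sum_card_image r C]
  refine Finset.sum_congr rfl fun j hj => ?_
  unfold size
  congr 1
  ext c
  rw [Finset.mem_filter, Finset.mem_filter]
  constructor
  · exact fun h => ⟨Finset.mem_univ _, h.2⟩
  · rintro ⟨-, h⟩
    obtain ⟨d, hd, hdj⟩ := Finset.mem_image.1 hj
    exact ⟨hC d c (hdj.trans h.symm) hd, h⟩

theorem Spread.strictlyUnbalanced (hD : D.Planar) (h : Spread D s) : D.StrictlyUnbalanced s := by
  classical
  obtain ⟨m, r, hr, hs, ht⟩ := h
  refine KnotDiagram.strictlyUnbalanced_of_series hD hr fun C hne hC => ?_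
  -- the last class in `C`
  obtain ⟨i, hi, hmax⟩ := Finset.exists_max_image (C.image r) id (hne.image r)
  obtain ⟨c, hc, hci⟩ := Finset.mem_image.1 hi
  have hle : ∀ j ∈ C.image r, j ≤ i := fun j hj => hmax j hj
  have hcard : (C.image r).card ≤ i + 1 := by
    have h1 : C.image r ⊆ Finset.Iic i := fun j hj => Finset.mem_Iic.2 (hle j hj)
    have h2 := Finset.card_le_card h1
    rwa [Fin.card_Iic] at h2
  -- the crossings of `C` outside the last class
  set L : Finset (Fin n) := Finset.univ.filter fun d => r d = i with hL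
  have hLC : L ⊆ C := fun d hd => by
    rw [hL, Finset.mem_filter] at hd
    exact hC c d (hci.trans hd.2.symm) hc
  have hLcard : L.card = size r i := rfl
  have hrest : (C \ L).card ≤ ∑ j ∈ Finset.univ.filter fun j => j < i, size r j := by
    have h1 : ∀ a b, r a = r b → a ∈ C \ L → b ∈ C \ L := by
      intro a b hab ha
      rw [Finset.mem_sdiff, hL, Finset.mem_filter] at ha ⊢
      refine ⟨hC a b hab ha.1, fun hb => ha.2 ⟨Finset.mem_univ _, hab.trans hb.2⟩⟩
    rw [card_class r h1]
    refine Finset.sum_le_sum_of_subset ?_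
    intro j hj
    obtain ⟨d, hd, hdj⟩ := Finset.mem_image.1 hj
    rw [Finset.mem_sdiff, hL, Finset.mem_filter] at hd
    rw [Finset.mem_filter]
    refine ⟨Finset.mem_univ _, lt_of_le_of_ne (hle j ?_) ?_⟩
    · exact Finset.mem_image.2 ⟨d, hd.1, hdj⟩
    · rintro rfl
      exact hd.2 ⟨Finset.mem_univ _, hdj⟩
  have hti := ht i
  -- numbers
  have hn : ∀ X : Bool, KnotDiagram.num s X C = KnotDiagram.num s X L +
      KnotDiagram.num s X (C \ L) := by
    intro X
    unfold KnotDiagram.num
    have h1 := Finset.card_filter_add_card_filter_not (s := C.filter fun c => s c = X)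
      (fun c => c ∈ L)
    rw [← h1]
    congr 2
    · ext d
      simp only [Finset.mem_filter]
      constructor
      · rintro ⟨⟨-, h2⟩, h3⟩
        exact ⟨h3, h2⟩
      · rintro ⟨h3, h2⟩
        exact ⟨⟨hLC h3, h2⟩, h3⟩
    · ext d
      simp only [Finset.mem_filter, Finset.mem_sdiff]
      tauto
  have hnle : ∀ X : Bool, KnotDiagram.num s X (C \ L) ≤ (C \ L).card := fun X =>
    Finset.card_filter_le _ _
  have hLs : ∀ d ∈ L, s d = s c := fun d hd => by
    rw [hL, Finset.mem_filter] at hd
    exact hs d c (hd.2.trans hci.symm)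
  have h1 : KnotDiagram.num s (s c) L = L.card := by
    unfold KnotDiagram.num
    rw [Finset.filter_true_of_mem hLs]
  have h2 : KnotDiagram.num s (!s c) L = 0 := by
    unfold KnotDiagram.num
    rw [Finset.card_eq_zero, Finset.filter_eq_empty_iff]
    intro d hd hd'
    rw [hLs d hd] at hd'
    cases hx : s c <;> rw [hx] at hd' <;> exact absurd hd' (by decide)
  have hT := hn true
  have hF := hn false
  have hT' := hnle true
  have hF' := hnle false
  cases hx : s c
  · rw [hx] at h1 h2
    have h2' : KnotDiagram.num s true L = 0 := h2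
    rw [h2'] at hT
    rw [h1] at hF
    rw [abs_sub_comm, abs_of_nonneg (by omega)]
    omega
  · rw [hx] at h1 h2
    have h2' : KnotDiagram.num s false L = 0 := h2
    rw [h2'] at hF
    rw [h1] at hT
    rw [abs_of_nonneg (by omega)]
    omega

end Pool.Agent.Helper39.Thirds
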